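import Pool.Agent.Helper20.Mono.GoalsG

/-!
# From the polynomial to the fan: faces, volumes, zeta functions; existence of fans; assembly

`expo f` is the set of exponent vectors of `f`.  The compact faces of the Newton polyhedron are
given by the sets of points of `A = expo f` on them (`cfaces A`).
-/

namespace Mono

open Finset Filter Topology Pointwise

variable {n : ℕ}

/-- The coefficient of a face of dimension `d` in the Denef–Loeser formula. -/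
noncomputable def cDL (d : ℕ) (s : ℝ) : ℝ := if d = 0 then 1 else s / (s + 1) * (-1) ^ d

open Classical in
/-- The Denef–Loeser expression, evaluated at a real number. -/
noncomputable def Zreal (A : Finset (Fin n → ℤ)) (T : Fan n) (s : ℝ) : ℝ :=
  ∑ φ ∈ cfaces A, cDL (dimF φ) s * (nvol φ : ℝ) *
    ∑ δ ∈ T.faces.filter (fun δ => δ.card + dimF φ = n ∧ ∀ a ∈ δ, ∀ v ∈ φ, a ⬝ᵥ v = NA A a),
      (idx (δ : Set (Fin n → ℤ)) : ℝ) / ∏ a ∈ δ, ((NA A a : ℝ) * s + ∑ i, (a i : ℝ))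

/-! ### EX. Existence of fans -/

/-- The finite set `R` generates the orthant. -/
def GenOrthant (R : Finset (Fin n → ℤ)) : Prop :=
  (∀ r ∈ R, ∀ i, 0 ≤ r i) ∧ (0 : Fin n → ℤ) ∉ R ∧
  ∀ i : Fin n, ∃ r ∈ R, ∃ d : ℤ, 0 < d ∧ r = Pi.single i d

/-- EX1: fans from generic heights. -/
def FanOfGeneric : Prop := ∀ (n : ℕ) (R : Finset (Fin n → ℤ)) (g : (Fin n → ℤ) → ℝ),
  GenOrthant R →
  (∀ F ⊆ R, F.card = n → Indep F → ∀ v ∈ R, v ∉ F →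
    ∑ u ∈ F, crd F (toR v) u * g u ≠ g v) →
  ∃ Φ : Fan n, Φ.vert = R ∧ Φ.Coherent ∧
    ∀ F ∈ Φ.mx, ∀ v ∈ R, g v ≤ ∑ u ∈ F, crd F (toR v) u * g u

/-- EX2: generic heights close to given ones (lexicographically). -/
def GenericHeights : Prop := ∀ (n : ℕ) (R : Finset (Fin n → ℤ)) (g₀ g₁ : (Fin n → ℤ) → ℝ),
  ∃ g : (Fin n → ℤ) → ℝ,
  (∀ F ⊆ R, F.card = n → Indep F → ∀ v ∈ R, v ∉ F →
    ∑ u ∈ F, crd F (toR v) u * g u ≠ g v) ∧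
  ∀ F ⊆ R, F.card = n → Indep F → ∀ v ∈ R, g v ≤ ∑ u ∈ F, crd F (toR v) u * g u →
    g₀ v ≤ ∑ u ∈ F, crd F (toR v) u * g₀ u ∧
    (g₀ v = ∑ u ∈ F, crd F (toR v) u * g₀ u → g₁ v ≤ ∑ u ∈ F, crd F (toR v) u * g₁ u)

/-- EX3: generators of a rational cone in the orthant. -/
def ConeGen : Prop := ∀ (n : ℕ) (C : Finset (Fin n → ℤ)), ∃ R : Finset (Fin n → ℤ),
  (∀ r ∈ R, (∀ i, 0 ≤ r i) ∧ ∀ c ∈ C, 0 ≤ c ⬝ᵥ r) ∧
  ∀ x : Fin n → ℝ, (∀ i, 0 ≤ x i) → (∀ c ∈ C, 0 ≤ toR c ⬝ᵥ x) →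
    ∃ y : (Fin n → ℤ) → ℝ, (∀ r, 0 ≤ y r) ∧ x = ∑ r ∈ R, y r • toR r

/-- EX4: the triangulated Newton boundary, convenient case. -/
def NewtonFanConv : Prop := ∀ (n : ℕ) (A : Finset (Fin n → ℤ)), GenOrthant A →
  ∃ Φ : Fan n, Φ.vert = A ∧ Φ.Newton ∅ ∧ Φ.Coherent

/-- EX5: simplicial refinements of the dual fan. -/
def DualFan : Prop := ∀ (n : ℕ) (A : Finset (Fin n → ℤ)), A.Nonempty → (∀ v ∈ A, ∀ i, 0 ≤ v i) →
  ∃ T : Fan n, Adapted A T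

/-- Every cone of `Φ` outside `Z` lies over a compact face. -/
def Fan.Nice (Φ : Fan n) (A Z : Finset (Fin n → ℤ)) : Prop :=
  ∀ F ∈ Φ.mx, ∃ a : Fin n → ℤ, (∀ i, 0 < a i) ∧ ∀ u ∈ F \ Z, a ⬝ᵥ u = NA A a

/-- Everything about a triangulation of the Newton boundary of `A`. -/
def Tri (A Z : Finset (Fin n → ℤ)) (Φ : Fan n) : Prop :=
  A.Nonempty ∧ (∀ v ∈ A, ∀ i, 0 ≤ v i) ∧ (0 : Fin n → ℤ) ∉ A ∧ Disjoint A Z ∧
  Φ.vert = A ∪ Z ∧ Φ.Newton Z ∧ Φ.Nice A Z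

/-- EX6: in the convenient case the triangulation is nice. -/
def NiceConv : Prop := ∀ (n : ℕ) (A : Finset (Fin n → ℤ)) (Φ : Fan n), 0 < n → GenOrthant A →
  Φ.vert = A → Φ.Newton ∅ → Tri A ∅ Φ

/-- EX7: the triangulated Newton boundary, general case. -/
def NewtonFan : Prop := ∀ (n : ℕ) (A : Finset (Fin n → ℤ)), A.Nonempty →
  (∀ v ∈ A, ∀ i, 0 ≤ v i) → (0 : Fin n → ℤ) ∉ A →
  ∃ (Φ : Fan n) (Z : Finset (Fin n → ℤ)), Tri A Z Φ ∧ Φ.Coherent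

/-! ### V. Volumes of faces -/

/-- V1: lattice points of the multiples of an open simplex. -/
def SimplexCount : Prop := ∀ (n : ℕ) (τ : Finset (Fin n → ℤ)), τ.Nonempty → Indep τ →
  Tendsto (fun k : ℕ => ((τ.card - 1).factorial : ℝ) *
    (Nat.card {x : Fin n → ℤ // ∃ c : (Fin n → ℤ) → ℝ, (∀ u ∈ τ, 0 < c u) ∧
      toR x = ∑ u ∈ τ, c u • toR u ∧ ∑ u ∈ τ, c u = k} : ℝ) / (k : ℝ) ^ (τ.card - 1))
    atTop (𝓝 (vol τ : ℝ))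

/-- V2: the normalised volume of a compact face is the sum of the volumes of its simplices. -/
def NvolSum : Prop := ∀ (n : ℕ) (A Z : Finset (Fin n → ℤ)) (Φ : Fan n), Tri A Z Φ →
  ∀ φ ∈ cfaces A, nvol φ = ∑ τ ∈ Φ.faces.filter (fun τ => τ ⊆ φ ∧ τ.card = dimF φ + 1),
    (vol τ : ℤ)

/-! ### T. From faces to simplices -/

/-- T1: the Denef–Loeser expression as a sum over the simplices of the triangulation. -/
def FaceSumZ : Prop := ∀ (n : ℕ) (A Z : Finset (Fin n → ℤ)) (Φ T : Fan n), Tri A Z Φ →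
  Adapted A T → ∀ s : ℝ,
  Zreal A T s = ∑ τ ∈ Φ.faces.filter (fun τ => τ.Nonempty ∧ τ ⊆ A),
    cDL (τ.card - 1) s * (vol τ : ℝ) * Jsum A Z T τ s (fun _ => 1)

/-- T2: Varchenko's multiplicity as a sum over the simplices of the triangulation. -/
def FaceSumMult : Prop := ∀ (n : ℕ) (A Z : Finset (Fin n → ℤ)) (Φ : Fan n), Tri A Z Φ →
  ∀ m : ℕ,
  ∑ φ ∈ (cfaces A).filter (fun φ => dimF φ + 1 = (cs φ).card ∧ m ∣ latDist φ),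
    (-1) ^ dimF φ * nvol φ =
  ∑ τ ∈ Φ.faces.filter (fun τ => τ.Nonempty ∧ τ ⊆ A ∧ τ.card = (cs τ).card ∧ m ∣ latDist τ),
    (-1) ^ (τ.card - 1) * (vol τ : ℤ)

/-! ### H. Assembly -/

/-- H1: the relation between the Denef–Loeser expression and `W`. -/
def ZWIdentity : Prop := ∀ (n : ℕ) (A Z : Finset (Fin n → ℤ)) (Φ T : Fan n), 0 < n →
  Tri A Z Φ → Adapted A T → ∀ w : Fin n → ℝ, Φ.Generic w → ∀ s : ℝ, s ≠ -1 →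
  (∀ F ∈ Φ.mx, s + psi Z F w ≠ 0) →
  (∀ δ ∈ T.mx, ∀ a ∈ δ, (NA A a : ℝ) * s + w ⬝ᵥ toR a ≠ 0) →
  (∀ δ ∈ T.mx, ∀ a ∈ δ, w ⬝ᵥ toR a ≠ 0) →
  ∑ τ ∈ Φ.faces.filter (fun τ => τ.Nonempty ∧ τ ⊆ A),
    cDL (τ.card - 1) s * (vol τ : ℝ) * Jsum A Z T τ s w =
  (1 / (s + 1)) * (∏ i, (w i)⁻¹ - s * Φ.W Z s w)

/-- H2: the limit. -/
def ZFormula : Prop := ∀ (n : ℕ) (A Z : Finset (Fin n → ℤ)) (Φ : Fan n), 0 < n →
  Tri A Z Φ → ∃ q : ℝ → Polynomial ℝ,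
  (∀ a, (∀ σ c, Φ.IsClass σ c → ∑ t ∈ σ \ Z, c t = a → Φ.Kill Z σ) → q a = 0) ∧
  (∀ F ∈ Φ.mx, 0 < psi Z F (fun _ => (1 : ℝ))) ∧
  ∀ T : Fan n, Adapted A T → ∀ s : ℝ, 0 < s →
    Zreal A T s = (1 - s * ∑ a ∈ Φ.mx.image (fun F => psi Z F (fun _ => (1 : ℝ))),
      (q a).eval (1 / (s + a))) / (s + 1)

/-- H3: evaluation of the rational function. -/
def ZEval : Prop := ∀ (n : ℕ) (A : Finset (Fin n → ℤ)) (T : Fan n), (∀ v ∈ A, ∀ i, 0 ≤ v i) →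
  ∀ s : ℝ, 0 < s → (ZDL A T).denom.eval (s : ℂ) ≠ 0 ∧
    RatFunc.eval (RingHom.id ℂ) (s : ℂ) (ZDL A T) = ((Zreal A T s : ℝ) : ℂ)

/-- H4: poles of a rational function known at the positive real numbers. -/
def PoleLemma : Prop := ∀ (Z : RatFunc ℂ) (𝒜 : Finset ℝ) (q : ℝ → Polynomial ℝ),
  (∀ s : ℝ, 0 < s → (∀ a ∈ 𝒜, s + a ≠ 0) → Z.denom.eval (s : ℂ) ≠ 0 ∧
    RatFunc.eval (RingHom.id ℂ) (s : ℂ) Z =
      (((1 - s * ∑ a ∈ 𝒜, (q a).eval (1 / (s + a))) / (s + 1) : ℝ) : ℂ)) →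
  ∀ s₀ : ℂ, Z.denom.eval s₀ = 0 → s₀ = -1 ∨ ∃ a ∈ 𝒜, q a ≠ 0 ∧ s₀ = -(a : ℂ)

/-- H5: zeros and poles of a product of cyclotomic type. -/
def CycloLemma : Prop := ∀ (ι : Type) (s : Finset ι) (N : ι → ℕ) (e : ι → ℤ) (m : ℕ) (ω : ℂ),
  (∀ i ∈ s, N i ≠ 0) → IsPrimitiveRoot ω m → m ≠ 0 →
  ∑ i ∈ s.filter (fun i => m ∣ N i), e i ≠ 0 →
  (∏ i ∈ s, (1 - RatFunc.X ^ N i : RatFunc ℂ) ^ e i).num.eval ω = 0 ∨
  (∏ i ∈ s, (1 - RatFunc.X ^ N i : RatFunc ℂ) ^ e i).denom.eval ω = 0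

end Mono
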