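import Pool.Agent.Helper20.Mono.Crd

/-!
# Exact statements of the packets (monodromy conjecture, nondegenerate case)

Paper proof: `/team-store/mono_proof.md`.  Each `def ... : Prop` is one packet (or a part of one);
the packet asks for `theorem <name> : <Prop>`.
-/

namespace Mono

open Finset

/-! ### A. Geometry of the fan -/

/-- A0: the cones in `mxT T` are bases of `ℝ^T`. -/
def SpanT : Prop := ∀ (n : ℕ) (Φ : Fan n) (T : Finset (Fin n)), ∀ τ ∈ Φ.mxT T,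
  ∀ y : Fin n → ℝ, (∀ i, i ∉ T → y i = 0) → IsCrd τ y (crd τ y)

/-- A1: the star of a face covers all admissible directions, in each coordinate subspace. -/
def StarCoverT : Prop := ∀ (n : ℕ) (Φ : Fan n) (T : Finset (Fin n)) (σ : Finset (Fin n → ℤ)),
  Φ.IsFace σ → (∀ u ∈ σ, ∀ i, i ∉ T → u i = 0) →
  ∀ y : Fin n → ℝ, (∀ i, i ∉ T → y i = 0) → (∀ i ∈ T, (∀ u ∈ σ, u i = 0) → 0 ≤ y i) →
  ∃ τ ∈ Φ.mxT T, σ ⊆ τ ∧ ∀ u, u ∉ σ → 0 ≤ crd τ y u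

/-- A2: an interior wall of the fan `Φ ∩ ℝ^T` lies in exactly two maximal cones, on opposite
sides. -/
def WallT : Prop := ∀ (n : ℕ) (Φ : Fan n) (T : Finset (Fin n)) (ρ : Finset (Fin n → ℤ)),
  Φ.IsFace ρ → ρ.card + 1 = T.card → cs ρ = T →
  ∃ u u' : Fin n → ℤ, u ≠ u' ∧ u ∉ ρ ∧ u' ∉ ρ ∧ insert u ρ ∈ Φ.mxT T ∧ insert u' ρ ∈ Φ.mxT T ∧
    (∀ τ ∈ Φ.mxT T, ρ ⊆ τ → τ = insert u ρ ∨ τ = insert u' ρ) ∧
    ∃ (a b : ℝ) (c : (Fin n → ℤ) → ℝ), 0 < a ∧ 0 < b ∧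
      a • toR u + b • toR u' = ∑ v ∈ ρ, c v • toR v

/-- A3: a boundary wall of the fan `Φ ∩ ℝ^T` lies in exactly one maximal cone. -/
def BdryT : Prop := ∀ (n : ℕ) (Φ : Fan n) (T : Finset (Fin n)) (i : Fin n)
  (ρ : Finset (Fin n → ℤ)), i ∈ T → ρ ∈ Φ.mxT (T.erase i) →
  ∃ u : Fin n → ℤ, u ∉ ρ ∧ insert u ρ ∈ Φ.mxT T ∧ 0 < u i ∧
    ∀ τ ∈ Φ.mxT T, ρ ⊆ τ → τ = insert u ρ

/-! ### I. Lattice indices -/

def IdxPos : Prop := ∀ (n : ℕ) (B : Set (Fin n → ℤ)), idx B ≠ 0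

/-- I1: wall relation. -/
def IdxWall : Prop := ∀ (n : ℕ) (ρ : Finset (Fin n → ℤ)) (u u' : Fin n → ℤ),
  u ∉ ρ → u' ∉ ρ → Indep (insert u ρ) → Indep (insert u' ρ) →
  ∀ (a b : ℝ) (c : (Fin n → ℤ) → ℝ), 0 < a → 0 < b →
    a • toR u + b • toR u' = ∑ v ∈ ρ, c v • toR v →
  ∀ w : Fin n → ℝ, (∀ v ∈ ρ, w ⬝ᵥ toR v = 0) →
    (w ⬝ᵥ toR u) * (idx ((insert u' ρ : Finset (Fin n → ℤ)) : Set (Fin n → ℤ)) : ℝ) +
      (w ⬝ᵥ toR u') * (idx ((insert u ρ : Finset (Fin n → ℤ)) : Set (Fin n → ℤ)) : ℝ) = 0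

/-- I2: adding a vertex at height one does not change the normalised volume. -/
def VolHeight : Prop := ∀ (n : ℕ) (τ : Finset (Fin n → ℤ)) (p : Fin n → ℤ) (i : Fin n),
  (∀ u ∈ τ, u i = 0) → p i = 1 → vol (insert p τ) = vol τ

/-- I3: boundary walls. -/
def IdxBdry : Prop := ∀ (n : ℕ) (T : Finset (Fin n)) (i : Fin n) (ρ : Finset (Fin n → ℤ))
  (u : Fin n → ℤ), i ∈ T → ρ.card + 1 = T.card → u ∉ ρ → Indep (insert u ρ) →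
  (∀ v ∈ ρ, ∀ j, j ∉ T.erase i → v j = 0) → (∀ j, j ∉ T → u j = 0) →
  (idx ((insert u ρ : Finset (Fin n → ℤ)) : Set (Fin n → ℤ)) : ℤ) = (idx (ρ : Set (Fin n → ℤ)) : ℤ) * |u i|

/-! ### B. Localization sums -/

/-- `w` is generic with respect to the fan. -/
def Fan.Generic {n : ℕ} (Φ : Fan n) (w : Fin n → ℝ) : Prop :=
  (∀ F ∈ Φ.mx, ∀ u ∈ F, crd F w u ≠ 0) ∧ ∀ i, w i ≠ 0

/-- The localization sum `E^σ_w(y)` over the star of `σ`. -/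
noncomputable def Fan.Esum {n : ℕ} (Φ : Fan n) (σ : Finset (Fin n → ℤ)) (w : Fin n → ℝ)
    (y : MvPolynomial (Fin n → ℤ) ℝ) : ℝ :=
  ∑ F ∈ Φ.mx.filter (fun F => σ ⊆ F),
    MvPolynomial.eval (crd F w) y / ((idx (F : Set (Fin n → ℤ)) : ℝ) * ∏ u ∈ F \ σ, crd F w u)

/-- B1. -/
def KFormula : Prop := ∀ (n : ℕ) (Φ : Fan n) (τ : Finset (Fin n → ℤ)), Φ.IsFace τ →
  ∀ w : Fin n → ℝ, Φ.Generic w →
  Φ.Esum τ w 1 = if (cs τ).card = τ.card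
    then 1 / ((idx (τ : Set (Fin n → ℤ)) : ℝ) * ∏ i ∈ (cs τ)ᶜ, w i) else 0

/-- B2. -/
def LowDegree : Prop := ∀ (n : ℕ) (Φ : Fan n) (σ : Finset (Fin n → ℤ)), Φ.IsFace σ →
  cs σ = univ → ∀ w : Fin n → ℝ, Φ.Generic w →
  ∀ (d : ℕ) (y : MvPolynomial (Fin n → ℤ) ℝ), y.IsHomogeneous d → d + σ.card < n →
  Φ.Esum σ w y = 0

/-! ### C. The algebra -/

/-- `θ_j = ∑ u_j x_u`. -/
noncomputable def Fan.theta {n : ℕ} (Φ : Fan n) (j : Fin n) : MvPolynomial (Fin n → ℤ) ℝ :=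
  ∑ u ∈ Φ.vert, MvPolynomial.C (u j : ℝ) * MvPolynomial.X u

/-- All monomials whose support together with `G` is not a face. -/
noncomputable def Fan.bad {n : ℕ} (Φ : Fan n) (G : Finset (Fin n → ℤ)) :
    Ideal (MvPolynomial (Fin n → ℤ) ℝ) :=
  Ideal.span {p | ∃ m : (Fin n → ℤ) →₀ ℕ, ¬ Φ.IsFace (m.support ∪ G) ∧
    p = MvPolynomial.monomial m 1}

/-- The ideal of the coordinate hyperplane `x_i = 0`. -/
noncomputable def coordIdeal {n : ℕ} (i : Fin n) : Ideal (MvPolynomial (Fin n → ℤ) ℝ) :=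
  Ideal.span {p | ∃ u : Fin n → ℤ, u i ≠ 0 ∧ p = MvPolynomial.X u}

/-- `Q r S = bad + (coordinate ideals, i ∈ S) + (θ_j, j < r)`. -/
noncomputable def Fan.Q {n : ℕ} (Φ : Fan n) (G : Finset (Fin n → ℤ)) (r : ℕ)
    (S : Finset (Fin n)) : Ideal (MvPolynomial (Fin n → ℤ) ℝ) :=
  Φ.bad G ⊔ S.sup coordIdeal ⊔ Ideal.span {p | ∃ j : Fin n, (j : ℕ) < r ∧ p = Φ.theta j}

/-- C2: the Chinese remainder property for the monomial ideals. -/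
def MonoCRT : Prop := ∀ (n : ℕ) (Φ : Fan n) (G : Finset (Fin n → ℤ)) (S J : Finset (Fin n))
  (a : Fin n → MvPolynomial (Fin n → ℤ) ℝ),
  (∀ i ∈ J, ∀ i' ∈ J, a i - a i' ∈ Φ.bad G ⊔ S.sup coordIdeal ⊔ coordIdeal i ⊔ coordIdeal i') →
  ∃ x, ∀ i ∈ J, x - a i ∈ Φ.bad G ⊔ S.sup coordIdeal ⊔ coordIdeal i

/-- C3d: regularity and dimension (4a). -/
def RegDim : Prop := ∀ (n : ℕ) (Φ : Fan n), Φ.Coherent → ∀ G : Finset (Fin n → ℤ), Φ.IsFace G →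
  ∀ S : Finset (Fin n), Disjoint S (cs G) →
  (∀ j : Fin n, j ∉ S → ∀ x, Φ.theta j * x ∈ Φ.Q G j S → x ∈ Φ.Q G j S) ∧
  FiniteDimensional ℝ (MvPolynomial (Fin n → ℤ) ℝ ⧸ Φ.Q G n S) ∧
  Module.finrank ℝ (MvPolynomial (Fin n → ℤ) ℝ ⧸ Φ.Q G n S) =
    ((Φ.mxT Sᶜ).filter (fun τ => G ⊆ τ)).card

/-- `θ` is a regular sequence modulo `I` (in the directions `j ∈ T`), and the total quotient has
dimension `d`. -/
def GoodI (k : Type) {P : Type} [Field k] [CommRing P] [Algebra k P] {n : ℕ} (θ : Fin n → P)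
    (T : Finset (Fin n)) (I : Ideal P) (d : ℕ) : Prop :=
  (∀ j ∈ T, ∀ x : P,
    θ j * x ∈ I ⊔ Ideal.span {p | ∃ i : Fin n, (i : ℕ) < (j : ℕ) ∧ p = θ i} →
    x ∈ I ⊔ Ideal.span {p | ∃ i : Fin n, (i : ℕ) < (j : ℕ) ∧ p = θ i}) ∧
  FiniteDimensional k (P ⧸ (I ⊔ Ideal.span (Set.range θ))) ∧
  Module.finrank k (P ⧸ (I ⊔ Ideal.span (Set.range θ))) = d

/-- C3a: extensions. -/
def ExtLemma : Prop := ∀ (k P : Type) [Field k] [CommRing P] [Algebra k P] (n : ℕ)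
  (θ : Fin n → P) (T : Finset (Fin n)) (I J : Ideal P) (p : P) (d d' : ℕ),
  (∀ j, j ∉ T → θ j ∈ I ∧ θ j ∈ J) → (∀ x, p * x ∈ I ↔ x ∈ J) →
  GoodI k θ T J d → GoodI k θ T (I ⊔ Ideal.span {p}) d' → GoodI k θ T I (d + d')

/-- C3b: one simplex. -/
def BaseLemma : Prop := ∀ (n : ℕ) (V : Finset (Fin n → ℤ)) (T : Finset (Fin n))
  (τ : Finset (Fin n → ℤ)), τ ⊆ V → Indep τ → τ.card = T.card →
  (∀ u ∈ τ, ∀ i, i ∉ T → u i = 0) →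
  GoodI ℝ (fun j : Fin n => ∑ u ∈ V, MvPolynomial.C (u j : ℝ) * MvPolynomial.X u) T
    (Ideal.span {p : MvPolynomial (Fin n → ℤ) ℝ | ∃ u, u ∉ τ ∧ p = MvPolynomial.X u}) 1

/-- C3c: shelling of the star of `G` in the fan `Φ ∩ ℝ^T`. -/
def Shelling : Prop := ∀ (n : ℕ) (Φ : Fan n), Φ.Coherent → ∀ G, Φ.IsFace G →
  ∀ T : Finset (Fin n), cs G ⊆ T →
  ∃ (R : Finset (Fin n → ℤ) → Finset (Fin n → ℤ)) (φ : Finset (Fin n → ℤ) → ℝ),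
    (∀ τ, R τ ⊆ τ \ G) ∧
    ∀ A, Φ.IsFace A → G ⊆ A → (∀ u ∈ A, ∀ i, i ∉ T → u i = 0) →
      ∃ τ ∈ (Φ.mxT T).filter (fun τ => G ⊆ τ), R τ ⊆ A ∧ A ⊆ τ ∧
        ∀ τ' ∈ (Φ.mxT T).filter (fun τ => G ⊆ τ), A ⊆ τ' → τ' ≠ τ → φ τ' < φ τ ∧ ¬ R τ' ⊆ A

/-- The local number `ℓ(G)`. -/
def Fan.ell {n : ℕ} (Φ : Fan n) (G : Finset (Fin n → ℤ)) : ℤ :=
  ∑ T ∈ (univ : Finset (Finset (Fin n))).filter (fun T => cs G ⊆ T),
    (-1) ^ (n - T.card) * (((Φ.mxT T).filter (fun τ => G ⊆ τ)).card : ℤ)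

/-- Every monomial covering `G` vanishes modulo `θ`. -/
def Fan.Star {n : ℕ} (Φ : Fan n) (G : Finset (Fin n → ℤ)) : Prop :=
  ∀ m : (Fin n → ℤ) →₀ ℕ, (∀ i, i ∉ cs G → ∃ u ∈ m.support, u i ≠ 0) →
    MvPolynomial.monomial m (1 : ℝ) ∈ Φ.bad G ⊔ Ideal.span (Set.range Φ.theta)

/-- C4: Proposition 4. -/
def AlgMain : Prop := ∀ (n : ℕ) (Φ : Fan n), Φ.Coherent → ∀ G : Finset (Fin n → ℤ), Φ.IsFace G →
  0 ≤ Φ.ell G ∧ (Φ.ell G = 0 → Φ.Star G)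

/-! ### D. Box points -/

/-- Number of lattice points in the open box of `G` with `ψ ≡ a` modulo `ℤ`. -/
noncomputable def lstar {n : ℕ} (Z : Finset (Fin n → ℤ)) (a : ℝ) (G : Finset (Fin n → ℤ)) : ℕ :=
  Nat.card {b : Fin n → ℤ // ∃ c : (Fin n → ℤ) → ℝ, (∀ u ∈ G, 0 < c u ∧ c u < 1) ∧
    toR b = ∑ u ∈ G, c u • toR u ∧ ∃ z : ℤ, ∑ u ∈ G \ Z, c u - a = z}

/-- D1 (5.1). -/
def BoxCount : Prop := ∀ (n : ℕ) (Z τ : Finset (Fin n → ℤ)), ¬ τ ⊆ Z → Indep τ → ∀ q : ℚ,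
  ∑ G ∈ τ.powerset, lstar Z (q : ℝ) G = if q.den ∣ latDistZ Z τ then volZ Z τ else 0

/-- D2 (5.2). -/
def MultFormula : Prop := ∀ (n : ℕ) (Φ : Fan n) (Z S : Finset (Fin n → ℤ)), Φ.Newton Z →
  S ⊆ Z → ∀ q : ℚ, q.den ≠ 1 →
  Φ.mult Z S q.den = ∑ G ∈ Φ.faces, (lstar Z (q : ℝ) G : ℤ) * Φ.ell (G ∪ S)

/-! ### E. Classes -/

/-- `σ` is the support of the vector `(1,…,1)`, with coefficients `c`. -/
def Fan.IsClass {n : ℕ} (Φ : Fan n) (σ : Finset (Fin n → ℤ)) (c : (Fin n → ℤ) → ℝ) : Prop :=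
  Φ.IsFace σ ∧ (∀ t ∈ σ, c t ≠ 0) ∧ (fun _ => (1 : ℝ)) = ∑ t ∈ σ, c t • toR t

/-- The vertices of `σ \ Z` which are alone at height one in some coordinate that vanishes on
`B`. -/
def apex {n : ℕ} (Z σ B : Finset (Fin n → ℤ)) : Finset (Fin n → ℤ) :=
  (σ \ Z).filter (fun p => ∃ i, p i = 1 ∧ (∀ t ∈ σ, t ≠ p → t i = 0) ∧ ∀ u ∈ B, u i = 0)

/-- The vanishing property (6.1). -/
def Fan.Kill {n : ℕ} (Φ : Fan n) (Z σ : Finset (Fin n → ℤ)) : Prop :=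
  ∀ w : Fin n → ℝ, Φ.Generic w → ∀ B : Finset (Fin n → ℤ), Disjoint B σ →
  ∀ (d : ℕ) (y : MvPolynomial (Fin n → ℤ) ℝ), y.IsHomogeneous d →
    B.card + (apex Z σ B).card + d + σ.card ≤ n →
    Φ.Esum σ w ((∏ u ∈ B, MvPolynomial.X u) * (∏ p ∈ apex Z σ B, MvPolynomial.X p) * y) = 0

/-- E1 (3.3). -/
def PairVanish : Prop := ∀ (n : ℕ) (Φ : Fan n) (G : Finset (Fin n → ℤ)), Φ.IsFace G →
  ∀ w : Fin n → ℝ, Φ.Generic w → ∀ m₁ m₂ : (Fin n → ℤ) →₀ ℕ,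
  MvPolynomial.monomial m₁ (1 : ℝ) ∈ Φ.bad G ⊔ Ideal.span (Set.range Φ.theta) →
  (∀ i, i ∉ cs G → ∃ u ∈ m₂.support, u i ≠ 0) → m₁.degree + m₂.degree + G.card ≤ n →
  Φ.Esum G w (MvPolynomial.monomial (m₁ + m₂) 1) = 0

open Classical in
/-- The non-integral part of a class, together with its generators of height zero. -/
noncomputable def ncore {n : ℕ} (Z σ : Finset (Fin n → ℤ)) (c : (Fin n → ℤ) → ℝ) :
    Finset (Fin n → ℤ) := σ.filter (fun t => t ∈ Z ∨ ∀ z : ℤ, c t ≠ z)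

/-- E2 (6.1). -/
def ClassKill : Prop := ∀ (n : ℕ) (Φ : Fan n) (Z σ : Finset (Fin n → ℤ))
  (c : (Fin n → ℤ) → ℝ), Φ.IsClass σ c → Φ.Star (ncore Z σ c) → Φ.Kill Z σ

/-- E3: the arithmetic of a class: if `a = ∑ c_t` is not an integer and the multiplicity of the
corresponding eigenvalue is zero, then the class is killed. -/
def ClassMain : Prop := ∀ (n : ℕ) (Φ : Fan n), Φ.Coherent → ∀ (Z σ : Finset (Fin n → ℤ)),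
  Φ.Newton Z → ∀ (c : (Fin n → ℤ) → ℝ), Φ.IsClass σ c →
  ∃ q : ℚ, ∑ t ∈ σ \ Z, c t = (q : ℝ) ∧
    (q.den ≠ 1 → Φ.mult Z (σ ∩ Z) q.den = 0 → Φ.Kill Z σ)

/-- Nonnegativity of the multiplicities. -/
def MultNonneg : Prop := ∀ (n : ℕ) (Φ : Fan n), Φ.Coherent → ∀ (Z S : Finset (Fin n → ℤ)),
  Φ.Newton Z → S ⊆ Z → ∀ m : ℕ, m ≠ 0 → m ≠ 1 → 0 ≤ Φ.mult Z S m

/-! ### F. The limit -/

/-- The contribution of the maximal cone `F` to `W(s, w)`. -/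
noncomputable def Wterm {n : ℕ} (Z F : Finset (Fin n → ℤ)) (s : ℝ) (w : Fin n → ℝ) : ℝ :=
  (1 / ((idx (F : Set (Fin n → ℤ)) : ℝ) * (s + psi Z F w))) *
    ∑ τ ∈ (F \ Z).powerset, (-1) ^ τ.card * (vol τ : ℝ) ^ 2 / ∏ u ∈ F \ τ, crd F w u

/-- The function `W(s, w)`. -/
noncomputable def Fan.W {n : ℕ} (Φ : Fan n) (Z : Finset (Fin n → ℤ)) (s : ℝ)
    (w : Fin n → ℝ) : ℝ :=
  ∑ F ∈ Φ.mx, Wterm Z F s w

/-- The first `n + 1` terms of the geometric series of `1 / (c + x)`. -/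
noncomputable def tgeo {n : ℕ} (c : ℝ) (x : MvPolynomial (Fin n → ℤ) ℝ) :
    MvPolynomial (Fin n → ℤ) ℝ :=
  ∑ k ∈ range (n + 1), MvPolynomial.C ((-1) ^ k * c⁻¹ ^ (k + 1)) * x ^ k

/-- The part of the numerator of the class `σ` that does not depend on `s`. -/
noncomputable def Fan.Y0 {n : ℕ} (Φ : Fan n) (Z σ : Finset (Fin n → ℤ))
    (c : (Fin n → ℤ) → ℝ) : MvPolynomial (Fin n → ℤ) ℝ :=
  ∑ B ∈ ((Φ.vert \ Z) \ σ).powerset, (∏ u ∈ B, MvPolynomial.X u) *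
    ∑ ρ ∈ (σ \ Z).powerset, MvPolynomial.C ((-1) ^ (ρ.card + B.card) * (vol (ρ ∪ B) : ℝ) ^ 2) *
      ∏ t ∈ σ \ ρ, tgeo (c t) (MvPolynomial.X t)

/-- The (truncated) numerator of the class `σ`. -/
noncomputable def Fan.Yhat {n : ℕ} (Φ : Fan n) (Z σ : Finset (Fin n → ℤ))
    (c : (Fin n → ℤ) → ℝ) (s : ℝ) : MvPolynomial (Fin n → ℤ) ℝ :=
  tgeo (s + ∑ t ∈ σ \ Z, c t) (∑ u ∈ Φ.vert \ Z, MvPolynomial.X u) * Φ.Y0 Z σ c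

/-- F1: the limit of the contribution of one class. -/
def ClassLimit : Prop := ∀ (n : ℕ) (Φ : Fan n) (Z σ : Finset (Fin n → ℤ))
  (c : (Fin n → ℤ) → ℝ), Φ.IsClass σ c → ∀ η : Fin n → ℝ, Φ.Generic η →
  ∀ s : ℝ, s + ∑ t ∈ σ \ Z, c t ≠ 0 →
  Filter.Tendsto
    (fun ε : ℝ => ∑ F ∈ Φ.mx.filter (fun F => σ ⊆ F),
      Wterm Z F s ((fun _ => (1 : ℝ)) + ε • η))
    (nhdsWithin 0 (Set.Ioi 0))
    (nhds (Φ.Esum σ η (MvPolynomial.homogeneousComponent (n - σ.card) (Φ.Yhat Z σ c s))))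

/-- F2: killed classes do not contribute. -/
def KillZero : Prop := ∀ (n : ℕ) (Φ : Fan n) (Z σ : Finset (Fin n → ℤ))
  (c : (Fin n → ℤ) → ℝ), Φ.IsClass σ c → Φ.Kill Z σ → ∀ η : Fin n → ℝ, Φ.Generic η →
  ∀ s : ℝ,
  Φ.Esum σ η (MvPolynomial.homogeneousComponent (n - σ.card) (Φ.Yhat Z σ c s)) = 0

/-- F3: limit of `W` at `(1,…,1)`: partial fractions, with vanishing of the killed classes. -/
def LimitW : Prop := ∀ (n : ℕ) (Φ : Fan n) (Z : Finset (Fin n → ℤ)) (η : Fin n → ℝ),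
  Φ.Generic η →
  ∃ q : ℝ → Polynomial ℝ,
  (∀ a, (∀ σ c, Φ.IsClass σ c → ∑ t ∈ σ \ Z, c t = a → Φ.Kill Z σ) → q a = 0) ∧
  ∀ s : ℝ, (∀ F ∈ Φ.mx, s + psi Z F (fun _ => 1) ≠ 0) →
    Filter.Tendsto (fun ε : ℝ => Φ.W Z s ((fun _ => (1 : ℝ)) + ε • η))
      (nhdsWithin 0 (Set.Ioi 0))
      (nhds (∑ a ∈ Φ.mx.image (fun F => psi Z F (fun _ => (1 : ℝ))),
        (q a).eval (1 / (s + a))))

end Mono
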