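import Pool.Agent.Helper20.Mono.Defs

/-! Basic API for coordinates with respect to a maximal cone. -/

namespace Mono

open Finset

variable {n : ℕ}

@[simp] theorem toR_apply (u : Fin n → ℤ) (i : Fin n) : toR u i = (u i : ℝ) := rfl

theorem toR_add (u v : Fin n → ℤ) : toR (u + v) = toR u + toR v := by
  funext i; simp

theorem toR_zero : toR (0 : Fin n → ℤ) = 0 := by funext i; simp

theorem toR_injective : Function.Injective (toR (n := n)) := by
  intro u v h
  funext i
  have := congrFun h i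
  simpa using this

theorem Indep.subset {F G : Finset (Fin n → ℤ)} (h : Indep F) (hG : G ⊆ F) : Indep G := by
  unfold Indep at *
  exact h.comp (fun u : G => (⟨u.1, hG u.2⟩ : F)) (by
    intro a b hab
    have := congrArg Subtype.val hab
    exact Subtype.ext this)

theorem Indep.sum_eq_zero {F : Finset (Fin n → ℤ)} (h : Indep F) {c : (Fin n → ℤ) → ℝ}
    (hc : ∑ u ∈ F, c u • toR u = 0) : ∀ u ∈ F, c u = 0 := by
  intro u hu
  have h1 := (Fintype.linearIndependent_iff.1 h) (fun v : F => c v) (by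
    rw [← hc]
    exact Finset.sum_coe_sort F (fun v => c v • toR v))
  exact h1 ⟨u, hu⟩

theorem Indep.coeff_eq {F : Finset (Fin n → ℤ)} (h : Indep F) {c d : (Fin n → ℤ) → ℝ}
    (hc : ∑ u ∈ F, c u • toR u = ∑ u ∈ F, d u • toR u) : ∀ u ∈ F, c u = d u := by
  intro u hu
  have h1 : ∑ u ∈ F, (c u - d u) • toR u = 0 := by
    simp only [sub_smul]
    rw [Finset.sum_sub_distrib, hc, sub_self]
  have := h.sum_eq_zero h1 u hu
  linarith

theorem crd_of_notMem (F : Finset (Fin n → ℤ)) (x : Fin n → ℝ) {u : Fin n → ℤ} (hu : u ∉ F) :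
    crd F x u = 0 := by
  unfold crd
  split_ifs with h
  · exact (Classical.choose_spec h).1 u hu
  · rfl

theorem crd_unique {F : Finset (Fin n → ℤ)} (h : Indep F) {x : Fin n → ℝ}
    {c : (Fin n → ℤ) → ℝ} (hc : IsCrd F x c) : crd F x = c := by
  have hex : ∃ c, IsCrd F x c := ⟨c, hc⟩
  have h2 : IsCrd F x (crd F x) := by
    unfold crd
    rw [dif_pos hex]
    exact Classical.choose_spec hex
  funext u
  by_cases hu : u ∈ F
  · exact h.coeff_eq (h2.2.symm.trans hc.2) u hu
  · rw [h2.1 u hu, hc.1 u hu]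

/-- Uniqueness of the coordinates, without support condition. -/
theorem crd_eq {F : Finset (Fin n → ℤ)} (h : Indep F) {x : Fin n → ℝ}
    {c : (Fin n → ℤ) → ℝ} (hc : x = ∑ u ∈ F, c u • toR u) {u : Fin n → ℤ} (hu : u ∈ F) :
    crd F x u = c u := by
  classical
  have h1 : IsCrd F x (fun v => if v ∈ F then c v else 0) := by
    refine ⟨fun v hv => by simp [hv], ?_⟩
    rw [hc]
    refine Finset.sum_congr rfl fun v hv => ?_
    simp [hv]
  rw [crd_unique h h1]
  simp [hu]

theorem exists_isCrd {F : Finset (Fin n → ℤ)} (h : Indep F) (hc : F.card = n)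
    (x : Fin n → ℝ) : ∃ c, IsCrd F x c := by
  classical
  have hb : Submodule.span ℝ (Set.range (fun u : F => toR (u : Fin n → ℤ))) = ⊤ := by
    refine LinearIndependent.span_eq_top_of_card_eq_finrank' h ?_
    simp [hc]
  have hx : x ∈ Submodule.span ℝ (Set.range (fun u : F => toR (u : Fin n → ℤ))) := by
    rw [hb]; trivial
  rw [Submodule.mem_span_range_iff_exists_fun] at hx
  obtain ⟨c, hc⟩ := hx
  refine ⟨fun v => if hv : v ∈ F then c ⟨v, hv⟩ else 0, fun v hv => by simp [hv], ?_⟩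
  rw [← hc, ← Finset.sum_coe_sort F]
  refine Finset.sum_congr rfl fun v _ => ?_
  simp

theorem sum_crd {F : Finset (Fin n → ℤ)} (h : Indep F) (hc : F.card = n) (x : Fin n → ℝ) :
    ∑ u ∈ F, crd F x u • toR u = x := by
  obtain ⟨c, hx⟩ := exists_isCrd h hc x
  rw [crd_unique h hx]
  exact hx.2.symm

theorem crd_add {F : Finset (Fin n → ℤ)} (h : Indep F) (hc : F.card = n) (x y : Fin n → ℝ)
    (u : Fin n → ℤ) : crd F (x + y) u = crd F x u + crd F y u := by
  by_cases hu : u ∈ F
  · refine crd_eq h (c := fun u => crd F x u + crd F y u) ?_ hu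
    simp only [add_smul]
    rw [Finset.sum_add_distrib, sum_crd h hc, sum_crd h hc]
  · simp [crd_of_notMem F _ hu]

theorem crd_smul {F : Finset (Fin n → ℤ)} (h : Indep F) (hc : F.card = n) (a : ℝ)
    (x : Fin n → ℝ) (u : Fin n → ℤ) : crd F (a • x) u = a * crd F x u := by
  by_cases hu : u ∈ F
  · refine crd_eq h (c := fun u => a * crd F x u) ?_ hu
    simp only [mul_smul]
    rw [← Finset.smul_sum, sum_crd h hc]
  · simp [crd_of_notMem F _ hu]

theorem crd_neg {F : Finset (Fin n → ℤ)} (h : Indep F) (hc : F.card = n)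
    (x : Fin n → ℝ) (u : Fin n → ℤ) : crd F (-x) u = - crd F x u := by
  have := crd_smul h hc (-1) x u
  simpa using this

open Classical in
theorem crd_toR {F : Finset (Fin n → ℤ)} (h : Indep F) {v : Fin n → ℤ} (hv : v ∈ F)
    (u : Fin n → ℤ) : crd F (toR v) u = if u = v then 1 else 0 := by
  have h1 : IsCrd F (toR v) (fun u => if u = v then 1 else 0) := by
    refine ⟨fun u hu => ?_, ?_⟩
    · have : u ≠ v := fun h => hu (h ▸ hv)
      simp [this]
    · simp [hv]
  rw [crd_unique h h1]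

/-- A linear functional evaluated through coordinates. -/
theorem dot_eq_sum_crd {F : Finset (Fin n → ℤ)} (h : Indep F) (hc : F.card = n)
    (w x : Fin n → ℝ) : w ⬝ᵥ x = ∑ u ∈ F, crd F x u * (w ⬝ᵥ toR u) := by
  conv_lhs => rw [← sum_crd h hc x]
  rw [dotProduct_sum]
  refine Finset.sum_congr rfl fun u _ => ?_
  rw [dotProduct_smul, smul_eq_mul]

theorem psi_add (Z : Finset (Fin n → ℤ)) {F : Finset (Fin n → ℤ)} (h : Indep F)
    (hc : F.card = n) (x y : Fin n → ℝ) : psi Z F (x + y) = psi Z F x + psi Z F y := by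
  unfold psi
  rw [← Finset.sum_add_distrib]
  exact Finset.sum_congr rfl fun u _ => crd_add h hc x y u

theorem psi_smul (Z : Finset (Fin n → ℤ)) {F : Finset (Fin n → ℤ)} (h : Indep F)
    (hc : F.card = n) (a : ℝ) (x : Fin n → ℝ) : psi Z F (a • x) = a * psi Z F x := by
  unfold psi
  rw [Finset.mul_sum]
  exact Finset.sum_congr rfl fun u _ => crd_smul h hc a x u

open Classical in
theorem psi_toR (Z : Finset (Fin n → ℤ)) {F : Finset (Fin n → ℤ)} (h : Indep F)
    {v : Fin n → ℤ} (hv : v ∈ F) : psi Z F (toR v) = if v ∈ Z then 0 else 1 := by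
  unfold psi
  simp [crd_toR h hv, hv]

namespace Fan

variable (Φ : Fan n)

theorem mem_faces {τ : Finset (Fin n → ℤ)} : τ ∈ Φ.faces ↔ Φ.IsFace τ := by
  simp [faces, IsFace]

theorem IsFace.indep {τ : Finset (Fin n → ℤ)} (h : Φ.IsFace τ) : Indep τ := by
  obtain ⟨F, hF, hs⟩ := h
  exact (Φ.mx_indep F hF).subset hs

theorem IsFace.subset {τ ρ : Finset (Fin n → ℤ)} (h : Φ.IsFace τ) (hρ : ρ ⊆ τ) :
    Φ.IsFace ρ := by
  obtain ⟨F, hF, hs⟩ := h
  exact ⟨F, hF, hρ.trans hs⟩

theorem IsFace.subset_vert {τ : Finset (Fin n → ℤ)} (h : Φ.IsFace τ) : τ ⊆ Φ.vert := by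
  obtain ⟨F, hF, hs⟩ := h
  exact hs.trans (Φ.mx_sub F hF)

end Fan

end Mono
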