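import Pool.Agent.Helper20.Mono.GoalsS
import Pool.Agent.Helper20.Mono.Crd

/-! # S3: decomposition of the multiples of a projected cell into open simplices -/

namespace Mono

namespace Cell20

open Finset Pointwise

variable {n : ℕ}

/-- Projection of one vector. -/
def pr (K : Finset (Fin n)) (v : Fin n → ℤ) : Fin n → ℤ := fun i => if i ∈ K then 0 else v i

theorem projS_eq (K : Finset (Fin n)) (A : Finset (Fin n → ℤ)) : projS K A = A.image (pr K) := rfl

theorem mem_eK {K : Finset (Fin n)} {u : Fin n → ℤ} : u ∈ eK K ↔ ∃ k ∈ K, Pi.single k 1 = u := by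
  simp [eK]

theorem single_inj {i j : Fin n} (h : (Pi.single i 1 : Fin n → ℤ) = Pi.single j 1) : i = j := by
  by_contra hne
  have := congrFun h i
  simp [hne] at this

theorem sum_split {M : Type*} [AddCommMonoid M] (s t : Finset (Fin n → ℤ))
    (f : (Fin n → ℤ) → M) : ∑ w ∈ s \ t, f w + ∑ w ∈ s ∩ t, f w = ∑ w ∈ s, f w := by
  classical
  rw [add_comm]
  exact Finset.sum_inter_add_sum_sdiff s t f

theorem sum_eK {M : Type*} [AddCommMonoid M] (K : Finset (Fin n)) (g : (Fin n → ℤ) → M) :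
    ∑ u ∈ eK K, g u = ∑ k ∈ K, g (Pi.single k 1) := by
  unfold eK
  rw [Finset.sum_image]
  intro i _ j _ h
  exact single_inj h

theorem dot_pr (K : Finset (Fin n)) (k : Fin n → ℝ) (hk : ∀ i ∈ K, k i = 0) (v : Fin n → ℤ) :
    k ⬝ᵥ toR (pr K v) = k ⬝ᵥ toR v := by
  refine Finset.sum_congr rfl fun i _ => ?_
  by_cases hi : i ∈ K
  · simp [pr, hi, hk i hi]
  · simp [pr, hi]

/-- The part of the `l`-value in the directions `K`. -/
def kv (K : Finset (Fin n)) (b : Fin n → ℝ) (v : Fin n → ℤ) : ℝ := ∑ i ∈ K, b i * (v i : ℝ)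

theorem dot_pr' (K : Finset (Fin n)) (b l : Fin n → ℝ) (hl : ∀ i ∈ K, l i = b i) (v : Fin n → ℤ) :
    l ⬝ᵥ toR v = l ⬝ᵥ toR (pr K v) + kv K b v := by
  unfold kv
  have h1 : ∑ i ∈ K, b i * (v i : ℝ) = ∑ i, if i ∈ K then l i * (v i : ℝ) else 0 := by
    rw [Finset.sum_ite_mem, Finset.univ_inter]
    exact Finset.sum_congr rfl fun i hi => by rw [hl i hi]
  rw [h1]
  unfold dotProduct
  rw [← Finset.sum_add_distrib]
  refine Finset.sum_congr rfl fun i _ => ?_
  by_cases hi : i ∈ K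
  · simp [pr, hi]
  · simp [pr, hi]

theorem toR_single (i : Fin n) :
    toR (Pi.single i 1 : Fin n → ℤ) = (Pi.single i 1 : Fin n → ℝ) := by
  funext j
  by_cases hj : j = i
  · subst hj; simp
  · simp [Pi.single_eq_of_ne hj]

/-- `1_K` -/
def oneK (K : Finset (Fin n)) : Fin n → ℝ := fun i => if i ∈ K then 1 else 0

theorem pr_inj {K : Finset (Fin n)} {Z ρ : Finset (Fin n → ℤ)} (hI : Indep ρ)
    (hK : ρ ∩ Z = eK K) : Set.InjOn (pr K) (ρ \ Z : Finset (Fin n → ℤ)) := by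
  classical
  intro u hu v hv huv
  by_contra hne
  have hu' := Finset.mem_coe.1 hu
  have hv' := Finset.mem_coe.1 hv
  rw [mem_sdiff] at hu' hv'
  -- coefficients of the relation
  have hrel : ∑ w ∈ ρ, (if w = u then (1 : ℝ) else if w = v then -1 else
      if w ∈ Z then ∑ i, (w i : ℝ) * ((v i : ℝ) - (u i : ℝ)) else 0) • toR w = 0 := by
    rw [← sum_split ρ Z]
    have h1 : ∑ w ∈ ρ \ Z, (if w = u then (1 : ℝ) else if w = v then -1 else
        if w ∈ Z then ∑ i, (w i : ℝ) * ((v i : ℝ) - (u i : ℝ)) else 0) • toR w =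
        toR u - toR v := by
      have h2 : ∀ w ∈ ρ \ Z, (if w = u then (1 : ℝ) else if w = v then -1 else
          if w ∈ Z then ∑ i, (w i : ℝ) * ((v i : ℝ) - (u i : ℝ)) else 0) • toR w =
          (if w = u then toR u else 0) + (if w = v then - toR v else 0) := by
        intro w hw
        rw [mem_sdiff] at hw
        by_cases h1 : w = u
        · subst h1
          simp [hne]
        · by_cases h2 : w = v
          · subst h2
            simp [h1]
          · simp [h1, h2, hw.2]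
      rw [Finset.sum_congr rfl h2, Finset.sum_add_distrib, Finset.sum_ite_eq', Finset.sum_ite_eq']
      simp only [mem_sdiff, hu', hv', not_false_eq_true, and_self, if_true]
      rw [sub_eq_add_neg]
    have h3 : ∑ w ∈ ρ ∩ Z, (if w = u then (1 : ℝ) else if w = v then -1 else
        if w ∈ Z then ∑ i, (w i : ℝ) * ((v i : ℝ) - (u i : ℝ)) else 0) • toR w =
        ∑ k ∈ K, ((v k : ℝ) - (u k : ℝ)) • (Pi.single k 1 : Fin n → ℝ) := by
      have h4 : ∀ w ∈ ρ ∩ Z, (if w = u then (1 : ℝ) else if w = v then -1 else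
          if w ∈ Z then ∑ i, (w i : ℝ) * ((v i : ℝ) - (u i : ℝ)) else 0) • toR w =
          (∑ i, (w i : ℝ) * ((v i : ℝ) - (u i : ℝ))) • toR w := by
        intro w hw
        rw [mem_inter] at hw
        have e1 : w ≠ u := fun h => hu'.2 (h ▸ hw.2)
        have e2 : w ≠ v := fun h => hv'.2 (h ▸ hw.2)
        simp [e1, e2, hw.2]
      rw [Finset.sum_congr rfl h4, hK, sum_eK]
      refine Finset.sum_congr rfl fun k _ => ?_
      rw [toR_single]
      congr 1
      rw [Finset.sum_eq_single k]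
      · simp
      · intro j _ hj
        simp [Pi.single_eq_of_ne hj]
      · simp
    rw [h1, h3]
    funext i
    simp only [Pi.add_apply, Pi.sub_apply, toR_apply, Finset.sum_apply, Pi.smul_apply,
      Pi.single_apply, smul_eq_mul, mul_ite, mul_one, mul_zero, Finset.sum_ite_eq, Pi.zero_apply]
    by_cases hi : i ∈ K
    · simp [hi]
    · have := congrFun huv i
      simp only [pr, hi, if_false] at this
      simp [hi, this]
  have h5 := hI.sum_eq_zero hrel u hu'.1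
  simp at h5

/-- Lifting a point of the projection. -/
theorem lift_eq {K : Finset (Fin n)} {Z ρ : Finset (Fin n → ℤ)} (hI : Indep ρ)
    (hK : ρ ∩ Z = eK K) (c : (Fin n → ℤ) → ℝ) (L : ℝ) :
    ∑ w ∈ projS K (ρ \ Z), c w • toR w + L • oneK K =
      ∑ u ∈ ρ, (if u ∈ Z then ∑ i, (u i : ℝ) * (L - ∑ w ∈ ρ \ Z, c (pr K w) * (w i : ℝ))
        else c (pr K u)) • toR u := by
  classical
  rw [← sum_split ρ Z (fun u => (if u ∈ Z then
    ∑ i, (u i : ℝ) * (L - ∑ w ∈ ρ \ Z, c (pr K w) * (w i : ℝ)) else c (pr K u)) • toR u)]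
  have h1 : ∑ u ∈ ρ \ Z, (if u ∈ Z then
      ∑ i, (u i : ℝ) * (L - ∑ w ∈ ρ \ Z, c (pr K w) * (w i : ℝ)) else c (pr K u)) • toR u =
      ∑ u ∈ ρ \ Z, c (pr K u) • toR u := by
    refine Finset.sum_congr rfl fun u hu => ?_
    rw [mem_sdiff] at hu
    simp [hu.2]
  have h3 : ∑ u ∈ ρ ∩ Z, (if u ∈ Z then
      ∑ i, (u i : ℝ) * (L - ∑ w ∈ ρ \ Z, c (pr K w) * (w i : ℝ)) else c (pr K u)) • toR u =
      ∑ k ∈ K, (L - ∑ w ∈ ρ \ Z, c (pr K w) * (w k : ℝ)) • (Pi.single k 1 : Fin n → ℝ) := by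
    have h4 : ∀ u ∈ ρ ∩ Z, (if u ∈ Z then
        ∑ i, (u i : ℝ) * (L - ∑ w ∈ ρ \ Z, c (pr K w) * (w i : ℝ)) else c (pr K u)) • toR u =
        (∑ i, (u i : ℝ) * (L - ∑ w ∈ ρ \ Z, c (pr K w) * (w i : ℝ))) • toR u := by
      intro u hu
      rw [mem_inter] at hu
      simp [hu.2]
    rw [Finset.sum_congr rfl h4, hK, sum_eK]
    refine Finset.sum_congr rfl fun k _ => ?_
    rw [toR_single]
    congr 1
    rw [Finset.sum_eq_single k]
    · simp
    · intro j _ hj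
      simp [Pi.single_eq_of_ne hj]
    · simp
  have h2 : ∑ w ∈ projS K (ρ \ Z), c w • toR w = ∑ u ∈ ρ \ Z, c (pr K u) • toR (pr K u) := by
    rw [projS_eq, Finset.sum_image]
    exact pr_inj hI hK
  rw [h1, h3, h2]
  funext i
  simp only [Pi.add_apply, toR_apply, Finset.sum_apply, Pi.smul_apply,
    Pi.single_apply, smul_eq_mul, mul_ite, mul_one, mul_zero, Finset.sum_ite_eq, oneK]
  by_cases hi : i ∈ K
  · simp [pr, hi]
  · simp [pr, hi]

/-- Uniqueness part. -/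
theorem unique {Z : Finset (Fin n → ℤ)} (Φ : Fan n) (K : Finset (Fin n))
    {ρ ρ' : Finset (Fin n → ℤ)} (h : ρ ∈ Φ.faces) (h' : ρ' ∈ Φ.faces) (hK : ρ ∩ Z = eK K)
    (hK' : ρ' ∩ Z = eK K) (c c' : (Fin n → ℤ) → ℝ) (hc : ∀ u ∈ projS K (ρ \ Z), 0 < c u)
    (hc' : ∀ u ∈ projS K (ρ' \ Z), 0 < c' u)
    (heq : ∑ u ∈ projS K (ρ \ Z), c u • toR u = ∑ u ∈ projS K (ρ' \ Z), c' u • toR u) :
    ρ = ρ' := by
  classical
  rw [Fan.mem_faces] at h h'
  obtain ⟨F, hF, hs⟩ := h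
  obtain ⟨F', hF', hs'⟩ := h'
  have hI := (Φ.mx_indep F hF).subset hs
  have hI' := (Φ.mx_indep F' hF').subset hs'
  obtain ⟨L, hL, hL'⟩ : ∃ L : ℝ, (∀ k, ∑ w ∈ ρ \ Z, c (pr K w) * (w k : ℝ) < L) ∧
      (∀ k, ∑ w ∈ ρ' \ Z, c' (pr K w) * (w k : ℝ) < L) := by
    refine ⟨1 + ∑ k : Fin n, |∑ w ∈ ρ \ Z, c (pr K w) * (w k : ℝ)| +
      ∑ k : Fin n, |∑ w ∈ ρ' \ Z, c' (pr K w) * (w k : ℝ)|, fun k => ?_, fun k => ?_⟩
    · have h1 := le_abs_self (∑ w ∈ ρ \ Z, c (pr K w) * (w k : ℝ))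
      have h2 := Finset.single_le_sum (f := fun k : Fin n =>
        |∑ w ∈ ρ \ Z, c (pr K w) * (w k : ℝ)|) (fun _ _ => abs_nonneg _) (Finset.mem_univ k)
      have h3 : 0 ≤ ∑ k : Fin n, |∑ w ∈ ρ' \ Z, c' (pr K w) * (w k : ℝ)| :=
        Finset.sum_nonneg fun _ _ => abs_nonneg _
      linarith
    · have h1 := le_abs_self (∑ w ∈ ρ' \ Z, c' (pr K w) * (w k : ℝ))
      have h2 := Finset.single_le_sum (f := fun k : Fin n =>
        |∑ w ∈ ρ' \ Z, c' (pr K w) * (w k : ℝ)|) (fun _ _ => abs_nonneg _) (Finset.mem_univ k)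
      have h3 : 0 ≤ ∑ k : Fin n, |∑ w ∈ ρ \ Z, c (pr K w) * (w k : ℝ)| :=
        Finset.sum_nonneg fun _ _ => abs_nonneg _
      linarith
  -- coordinates
  have key : ∀ (ρ F : Finset (Fin n → ℤ)) (c : (Fin n → ℤ) → ℝ), ρ ∩ Z = eK K → ρ ⊆ F →
      F ∈ Φ.mx → (∀ u ∈ projS K (ρ \ Z), 0 < c u) →
      (∀ k, ∑ w ∈ ρ \ Z, c (pr K w) * (w k : ℝ) < L) →
      ∀ G : Finset (Fin n → ℤ), G ∈ Φ.mx → ρ ⊆ G →
      ∀ u, (u ∈ ρ → 0 < crd G (∑ w ∈ projS K (ρ \ Z), c w • toR w + L • oneK K) u) ∧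
        (u ∉ ρ → crd G (∑ w ∈ projS K (ρ \ Z), c w • toR w + L • oneK K) u = 0) := by
    intro ρ F c hK hs hF hc hL G hG hGs u
    have hIρ := (Φ.mx_indep F hF).subset hs
    have h1 := lift_eq hIρ hK c L
    have hIs : IsCrd G (∑ w ∈ projS K (ρ \ Z), c w • toR w + L • oneK K)
        (fun u => if u ∈ ρ then (if u ∈ Z then ∑ i, (u i : ℝ) *
          (L - ∑ w ∈ ρ \ Z, c (pr K w) * (w i : ℝ)) else c (pr K u)) else 0) := by
      refine ⟨fun u hu => ?_, ?_⟩
      · have : u ∉ ρ := fun h => hu (hGs h)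
        simp [this]
      rw [h1]
      rw [← Finset.sum_subset hGs]
      · refine Finset.sum_congr rfl fun u hu => by simp [hu]
      · intro u _ hu
        simp [hu]
    rw [crd_unique (Φ.mx_indep G hG) hIs]
    constructor
    · intro hu
      simp only [hu, if_true]
      by_cases hz : u ∈ Z
      · simp only [hz, if_true]
        have : u ∈ eK K := by rw [← hK]; exact mem_inter.2 ⟨hu, hz⟩
        obtain ⟨k, hk, rfl⟩ := mem_eK.1 this
        rw [Finset.sum_eq_single k]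
        · have := hL k
          simp only [Pi.single_eq_same, Int.cast_one, one_mul]
          linarith
        · intro j _ hj
          simp [Pi.single_eq_of_ne hj]
        · simp
      · simp only [hz, if_false]
        refine hc _ ?_
        rw [projS_eq]
        exact Finset.mem_image_of_mem _ (mem_sdiff.2 ⟨hu, hz⟩)
    · intro hu
      simp [hu]
  have k1 := key ρ F c hK hs hF hc hL
  have k2 := key ρ' F' c' hK' hs' hF' hc' hL'
  rw [← heq] at k2
  have hnn1 : ∀ u, 0 ≤ crd F (∑ w ∈ projS K (ρ \ Z), c w • toR w + L • oneK K) u := by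
    intro u
    by_cases hu : u ∈ ρ
    · exact ((k1 F hF hs u).1 hu).le
    · exact ((k1 F hF hs u).2 hu).ge
  have hnn2 : ∀ u, 0 ≤ crd F' (∑ w ∈ projS K (ρ \ Z), c w • toR w + L • oneK K) u := by
    intro u
    by_cases hu : u ∈ ρ'
    · exact ((k2 F' hF' hs' u).1 hu).le
    · exact ((k2 F' hF' hs' u).2 hu).ge
  have hsub : ρ ⊆ F' := by
    intro u hu
    by_contra hn
    have := Φ.inter F hF F' hF' _ hnn1 hnn2 u hn
    exact absurd this ((k1 F hF hs u).1 hu).ne'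
  have hsub' : ρ' ⊆ F := by
    intro u hu
    by_contra hn
    have := Φ.inter F' hF' F hF _ hnn2 hnn1 u hn
    exact absurd this ((k2 F' hF' hs' u).1 hu).ne'
  ext u
  constructor
  · intro hu
    by_contra hn
    exact absurd ((k2 F' hF' hs' u).2 hn) ((k1 F' hF' hsub u).1 hu).ne'
  · intro hu
    by_contra hn
    exact absurd ((k1 F hF hs u).2 hn) ((k2 F hF hsub' u).1 hu).ne'

/-- A cone of the fan that contains `x + L 1_K` for arbitrarily large `L`. -/
theorem star_exists (Φ : Fan n) (K : Finset (Fin n)) (x : Fin n → ℝ) (hx : ∀ i, 0 ≤ x i) :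
    ∃ F ∈ Φ.mx, ∀ M : ℕ, ∃ m : ℕ, M ≤ m ∧ ∀ u, 0 ≤ crd F (x + (m : ℝ) • oneK K) u := by
  classical
  by_contra hcon
  push Not at hcon
  choose! g hg using hcon
  have hcov := Φ.cover (x + ((Φ.mx.sup g : ℕ) : ℝ) • oneK K) (by
    intro i
    simp only [Pi.add_apply, Pi.smul_apply, smul_eq_mul, oneK]
    have := hx i
    split_ifs
    · positivity
    · simp [this])
  obtain ⟨F, hF, hFx⟩ := hcov
  obtain ⟨u, hu⟩ := hg F hF (Φ.mx.sup g) (Finset.le_sup hF)
  exact absurd (hFx u) (not_le.2 hu)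

theorem vert_cases {A Z : Finset (Fin n → ℤ)} {Φ : Fan n} (hTri : Tri A Z Φ)
    {F : Finset (Fin n → ℤ)} (hF : F ∈ Φ.mx) {u : Fin n → ℤ} (hu : u ∈ F) : u ∈ A ∨ u ∈ Z := by
  have := Φ.mx_sub F hF hu
  rw [hTri.2.2.2.2.1, mem_union] at this
  exact this

/-- Coordinates of `1_K`. -/
theorem star_K {A Z : Finset (Fin n → ℤ)} {Φ : Fan n} (hTri : Tri A Z Φ) (K : Finset (Fin n))
    (hnoA : ∀ v ∈ A, ¬ ∀ i, i ∉ K → v i = 0)
    {F : Finset (Fin n → ℤ)} (hF : F ∈ Φ.mx) (h1 : ∀ u, 0 ≤ crd F (oneK K) u) :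
    eK K ⊆ F ∩ Z ∧ ∀ u, u ∉ eK K → crd F (oneK K) u = 0 := by
  classical
  have hI := Φ.mx_indep F hF
  have hc := Φ.mx_card F hF
  have hsum := sum_crd hI hc (oneK K)
  have hcoord : ∀ i, ∑ u ∈ F, crd F (oneK K) u * (u i : ℝ) = oneK K i := by
    intro i
    have := congrFun hsum i
    simpa [Finset.sum_apply] using this
  have hnn : ∀ u ∈ F, ∀ i, (0 : ℝ) ≤ crd F (oneK K) u * (u i : ℝ) := by
    intro u hu i
    have h2 : (0 : ℤ) ≤ u i := Φ.vert_nonneg u (Φ.mx_sub F hF hu) i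
    exact mul_nonneg (h1 u) (by exact_mod_cast h2)
  have hsupp : ∀ u ∈ F, crd F (oneK K) u ≠ 0 → u ∈ eK K ∧ u ∈ Z := by
    intro u hu hne
    have hz : ∀ i, i ∉ K → u i = 0 := by
      intro i hi
      have h3 := hcoord i
      simp only [oneK, hi, if_false] at h3
      have h4 := (Finset.sum_eq_zero_iff_of_nonneg (fun u hu => hnn u hu i)).1 h3 u hu
      rcases mul_eq_zero.1 h4 with h | h
      · exact absurd h hne
      · exact_mod_cast h
    rcases vert_cases hTri hF hu with h | h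
    · exact absurd hz (hnoA u h)
    · refine ⟨?_, h⟩
      obtain ⟨j, rfl⟩ := hTri.2.2.2.2.2.1.2.1 u h
      refine mem_eK.2 ⟨j, ?_, rfl⟩
      by_contra hj
      have := hz j hj
      simp at this
  refine ⟨?_, ?_⟩
  · intro u hu
    obtain ⟨k, hk, rfl⟩ := mem_eK.1 hu
    have h3 := hcoord k
    simp only [oneK, hk, if_true] at h3
    obtain ⟨v, hv, hne⟩ := Finset.exists_ne_zero_of_sum_ne_zero (by rw [h3]; exact one_ne_zero)
    have h4 : crd F (oneK K) v ≠ 0 := left_ne_zero_of_mul hne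
    have h5 : (v k : ℝ) ≠ 0 := right_ne_zero_of_mul hne
    obtain ⟨h6, h7⟩ := hsupp v hv h4
    obtain ⟨j, hj, rfl⟩ := mem_eK.1 h6
    have : j = k := by
      by_contra hjk
      apply h5
      simp [Pi.single_eq_of_ne (Ne.symm hjk)]
    subst this
    exact mem_inter.2 ⟨hv, h7⟩
  · intro u hu
    by_contra hne
    by_cases huF : u ∈ F
    · exact hu (hsupp u huF hne).1
    · exact hne (crd_of_notMem F _ huF)

/-- Existence part. -/
theorem exist {A Z : Finset (Fin n → ℤ)} {b : Fin n → ℝ} {Φ : Fan n}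
    (hTri : Tri A Z Φ) (hB : BFan A Z b Φ) (hb : ∀ i, 0 < b i) (K : Finset (Fin n))
    {φ : Finset (Fin n → ℤ)} (hφ : φ ∈ cellsS A K b) (y : (Fin n → ℤ) → ℝ)
    (hy : ∀ w ∈ projS K φ, 0 ≤ y w) (x : Fin n → ℝ) (N : ℝ) (_hN : 0 < N)
    (hyN : ∑ w ∈ projS K φ, y w = N) (hx : x = ∑ w ∈ projS K φ, y w • toR w) :
    ∃ ρ ∈ Φ.faces, ρ ∩ Z = eK K ∧ ρ \ Z ⊆ φ ∧ ∃ c : (Fin n → ℤ) → ℝ,
      (∀ u ∈ projS K (ρ \ Z), 0 < c u) ∧ x = ∑ u ∈ projS K (ρ \ Z), c u • toR u ∧
        ∑ u ∈ projS K (ρ \ Z), c u = N := by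
  classical
  simp only [cellsS, mem_filter, mem_powerset] at hφ
  obtain ⟨hφA, k, l, hkl, hkl', hA, hφeq⟩ := hφ
  have hAnn := hTri.2.1
  have hAZ : Disjoint A Z := hTri.2.2.2.1
  have hZe := hTri.2.2.2.2.2.1.2.1
  have hk0 : ∀ i ∈ K, k i = 0 := fun i hi => (hkl i hi).1
  have hl0 : ∀ i ∈ K, l i = b i := fun i hi => (hkl i hi).2
  have hknn : ∀ i, 0 ≤ k i := by
    intro i
    by_cases hi : i ∈ K
    · exact (hk0 i hi).ge
    · rcases hkl' i hi with h | h
      · exact h.le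
      · exact h.1.ge
  have hnoA : ∀ v ∈ A, ¬ ∀ i, i ∉ K → v i = 0 := by
    intro v hv hK
    have h0 : k ⬝ᵥ toR v = 0 := by
      refine Finset.sum_eq_zero fun i _ => ?_
      by_cases hi : i ∈ K
      · rw [hk0 i hi, zero_mul]
      · simp [hK i hi]
    rcases hA v hv with h | ⟨h, _⟩
    · rw [h0] at h; linarith
    · rw [h0] at h; linarith
  -- lifts
  have hlift : ∀ w ∈ projS K φ, ∃ v ∈ φ, pr K v = w := by
    intro w hw
    rw [projS_eq, mem_image] at hw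
    exact hw
  choose! g hg1 hg2 using hlift
  have hxnn : ∀ i, 0 ≤ x i := by
    intro i
    rw [hx, Finset.sum_apply]
    refine Finset.sum_nonneg fun w hw => ?_
    rw [Pi.smul_apply, smul_eq_mul]
    refine mul_nonneg (hy w hw) ?_
    rw [← hg2 w hw]
    have h2 := hAnn (g w) (hφA (hg1 w hw)) i
    simp only [toR_apply, pr]
    split_ifs
    · simp
    · exact_mod_cast h2
  obtain ⟨F, hF, hFm⟩ := star_exists Φ K x hxnn
  have hI := Φ.mx_indep F hF
  have hc := Φ.mx_card F hF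
  have hFm' : ∀ M : ℕ, ∃ m : ℕ, M ≤ m ∧ ∀ u, 0 ≤ crd F x u + m * crd F (oneK K) u := by
    intro M
    obtain ⟨m, hm, h⟩ := hFm M
    refine ⟨m, hm, fun u => ?_⟩
    have := h u
    rwa [crd_add hI hc, crd_smul hI hc] at this
  have h1K : ∀ u, 0 ≤ crd F (oneK K) u := by
    intro u
    by_contra hneg
    push Not at hneg
    obtain ⟨M, hM⟩ := exists_nat_gt (crd F x u / (-crd F (oneK K) u))
    obtain ⟨m, hm, h⟩ := hFm' M
    have h2 := h u
    have h3 : (M : ℝ) ≤ m := by exact_mod_cast hm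
    rw [div_lt_iff₀ (by linarith)] at hM
    nlinarith
  obtain ⟨heK, hzero⟩ := star_K hTri K hnoA hF h1K
  have hcx : ∀ u, u ∉ eK K → 0 ≤ crd F x u := by
    intro u hu
    obtain ⟨m, _, h⟩ := hFm' 0
    have := h u
    rwa [hzero u hu, mul_zero, add_zero] at this
  obtain ⟨k', l', hF1, hF2, hF3, hF4⟩ := hB F hF
  have hk'nn : ∀ i, 0 ≤ k' i := by
    intro i
    by_cases hi : (Pi.single i 1 : Fin n → ℤ) ∈ F ∩ Z
    · exact (hF2 i hi).1.ge
    · rcases hF3 i hi with h | h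
      · exact h.le
      · exact h.1.ge
  have hkK' : ∀ i ∈ K, k' i = 0 ∧ l' i = b i := fun i hi => hF2 i (heK (mem_eK.2 ⟨i, hi, rfl⟩))
  -- abbreviations
  set c : (Fin n → ℤ) → ℝ := crd F x with hcdef
  have hdotx : ∀ κ : Fin n → ℝ, κ ⬝ᵥ x = ∑ u ∈ F, c u * (κ ⬝ᵥ toR u) := fun κ =>
    dot_eq_sum_crd hI hc κ x
  have hdoty : ∀ κ : Fin n → ℝ, κ ⬝ᵥ x = ∑ w ∈ projS K φ, y w * (κ ⬝ᵥ toR w) := by
    intro κ
    rw [hx, dotProduct_sum]
    refine Finset.sum_congr rfl fun w _ => ?_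
    rw [dotProduct_smul, smul_eq_mul]
  have hkφ : ∀ v ∈ φ, k ⬝ᵥ toR v = 1 ∧ l ⬝ᵥ toR v = 0 := by
    intro v hv
    rw [hφeq, mem_filter] at hv
    exact hv.2
  have hdsingle : ∀ (κ : Fin n → ℝ) (i : Fin n), κ ⬝ᵥ toR (Pi.single i 1 : Fin n → ℤ) = κ i := by
    intro κ i
    rw [toR_single, dotProduct_single, mul_one]
  -- splitting sums over F
  have hsplitF : ∀ h : (Fin n → ℤ) → ℝ, ∑ u ∈ F, h u = ∑ u ∈ F \ Z, h u +
      (∑ u ∈ (F ∩ Z) \ eK K, h u + ∑ i ∈ K, h (Pi.single i 1)) := by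
    intro h
    rw [← sum_split F Z h, ← sum_split (F ∩ Z) (eK K) h, Finset.inter_eq_right.2 heK, sum_eK]
  have hjz : ∀ u ∈ (F ∩ Z) \ eK K, ∃ j, j ∉ K ∧ (Pi.single j 1 : Fin n → ℤ) = u ∧
      k' ⬝ᵥ toR u = 0 ∧ l' ⬝ᵥ toR u = b j ∧ 0 ≤ k j ∧ (k j = 0 → b j < l j) := by
    intro u hu
    rw [mem_sdiff] at hu
    obtain ⟨j, rfl⟩ := hZe u (mem_inter.1 hu.1).2
    have hj : j ∉ K := fun h => hu.2 (mem_eK.2 ⟨j, h, rfl⟩)
    refine ⟨j, hj, rfl, ?_, ?_, hknn j, ?_⟩
    · rw [hdsingle]; exact (hF2 j hu.1).1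
    · rw [hdsingle]; exact (hF2 j hu.1).2
    · intro h0
      rcases hkl' j hj with h | h
      · rw [h0] at h; exact absurd h (lt_irrefl _)
      · exact h.2
  have hFA : ∀ u ∈ F \ Z, u ∈ A := by
    intro u hu
    rw [mem_sdiff] at hu
    exact (vert_cases hTri hF hu.1).resolve_right hu.2
  have hcF : ∀ u ∈ F \ Z, 0 ≤ c u := by
    intro u hu
    refine hcx u fun h => ?_
    rw [mem_sdiff] at hu
    exact hu.2 (mem_inter.1 (heK h)).2
  have hcZ : ∀ u ∈ (F ∩ Z) \ eK K, 0 ≤ c u := by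
    intro u hu
    exact hcx u (mem_sdiff.1 hu).2
  -- the value of k on x
  have hkA : ∀ v ∈ A, 1 ≤ k ⬝ᵥ toR v := by
    intro v hv
    rcases hA v hv with h | h
    · exact h.le
    · exact h.1.ge
  have hk'A : ∀ v ∈ A, 1 ≤ k' ⬝ᵥ toR v := by
    intro v hv
    rcases hF4 v hv with h | h
    · exact h.le
    · exact h.1.ge
  have ekx : k ⬝ᵥ x = N := by
    rw [hdoty, ← hyN]
    refine Finset.sum_congr rfl fun w hw => ?_
    rw [← hg2 w hw, dot_pr K k hk0, (hkφ _ (hg1 w hw)).1, mul_one, hg2 w hw]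
  have ek'x1 : k' ⬝ᵥ x = ∑ w ∈ projS K φ, y w * (k' ⬝ᵥ toR (g w)) := by
    rw [hdoty]
    refine Finset.sum_congr rfl fun w hw => ?_
    conv_lhs => rw [← hg2 w hw]
    rw [dot_pr K k' (fun i hi => (hkK' i hi).1), hg2 w hw]
  have ek'x2 : k' ⬝ᵥ x = ∑ u ∈ F \ Z, c u := by
    rw [hdotx, hsplitF]
    have e1 : ∑ u ∈ (F ∩ Z) \ eK K, c u * (k' ⬝ᵥ toR u) = 0 := by
      refine Finset.sum_eq_zero fun u hu => ?_
      obtain ⟨j, _, _, h, _⟩ := hjz u hu
      rw [h, mul_zero]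
    have e2 : ∑ i ∈ K, c (Pi.single i 1) * (k' ⬝ᵥ toR (Pi.single i 1 : Fin n → ℤ)) = 0 := by
      refine Finset.sum_eq_zero fun i hi => ?_
      rw [hdsingle, (hkK' i hi).1, mul_zero]
    rw [e1, e2, add_zero, add_zero]
    refine Finset.sum_congr rfl fun u hu => ?_
    rw [(hF1 u hu).1, mul_one]
  have ekx2 : k ⬝ᵥ x = ∑ u ∈ F \ Z, c u * (k ⬝ᵥ toR u) +
      ∑ u ∈ (F ∩ Z) \ eK K, c u * (k ⬝ᵥ toR u) := by
    rw [hdotx, hsplitF]
    have e2 : ∑ i ∈ K, c (Pi.single i 1) * (k ⬝ᵥ toR (Pi.single i 1 : Fin n → ℤ)) = 0 := by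
      refine Finset.sum_eq_zero fun i hi => ?_
      rw [hdsingle, hk0 i hi, mul_zero]
    rw [e2, add_zero]
  -- first chain of inequalities
  have i1 : N ≤ ∑ u ∈ F \ Z, c u := by
    rw [← ek'x2, ek'x1, ← hyN]
    refine Finset.sum_le_sum fun w hw => ?_
    exact le_mul_of_one_le_right (hy w hw) (hk'A _ (hφA (hg1 w hw)))
  have i2 : ∑ u ∈ F \ Z, c u ≤ ∑ u ∈ F \ Z, c u * (k ⬝ᵥ toR u) :=
    Finset.sum_le_sum fun u hu => le_mul_of_one_le_right (hcF u hu) (hkA u (hFA u hu))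
  have i3 : ∀ u ∈ (F ∩ Z) \ eK K, 0 ≤ c u * (k ⬝ᵥ toR u) := by
    intro u hu
    obtain ⟨j, _, hj, _, _, h, _⟩ := hjz u hu
    refine mul_nonneg (hcZ u hu) ?_
    rw [← hj, hdsingle]
    exact h
  have i3' := Finset.sum_nonneg i3
  have eN : ∑ u ∈ F \ Z, c u = N := by
    rw [ekx2] at ekx
    linarith
  have z1 : ∀ u ∈ F \ Z, c u * (k ⬝ᵥ toR u) - c u = 0 := by
    refine (Finset.sum_eq_zero_iff_of_nonneg (fun u hu => ?_)).1 ?_
    · have := le_mul_of_one_le_right (hcF u hu) (hkA u (hFA u hu))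
      linarith
    · rw [Finset.sum_sub_distrib]
      rw [ekx2] at ekx
      linarith
  have z2 : ∀ u ∈ (F ∩ Z) \ eK K, c u * (k ⬝ᵥ toR u) = 0 := by
    refine (Finset.sum_eq_zero_iff_of_nonneg i3).1 ?_
    rw [ekx2] at ekx
    linarith
  have z3 : ∀ w ∈ projS K φ, y w * (k' ⬝ᵥ toR (g w)) - y w = 0 := by
    refine (Finset.sum_eq_zero_iff_of_nonneg (fun w hw => ?_)).1 ?_
    · have := le_mul_of_one_le_right (hy w hw) (hk'A _ (hφA (hg1 w hw)))
      linarith
    · rw [Finset.sum_sub_distrib, ← ek'x1, ek'x2, eN, hyN, sub_self]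
  -- second chain
  have hlx : l ⬝ᵥ x = - ∑ w ∈ projS K φ, y w * kv K b (g w) := by
    rw [hdoty, ← Finset.sum_neg_distrib]
    refine Finset.sum_congr rfl fun w hw => ?_
    have h1 := dot_pr' K b l hl0 (g w)
    rw [(hkφ _ (hg1 w hw)).2, hg2 w hw] at h1
    have : l ⬝ᵥ toR w = - kv K b (g w) := by linarith
    rw [this]; ring
  have hl'x : l' ⬝ᵥ x = ∑ w ∈ projS K φ, y w * (l' ⬝ᵥ toR (g w)) -
      ∑ w ∈ projS K φ, y w * kv K b (g w) := by
    rw [hdoty, ← Finset.sum_sub_distrib]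
    refine Finset.sum_congr rfl fun w hw => ?_
    have h1 := dot_pr' K b l' (fun i hi => (hkK' i hi).2) (g w)
    rw [hg2 w hw] at h1
    rw [h1]; ring
  have hlx2 : l ⬝ᵥ x = ∑ u ∈ F \ Z, c u * (l ⬝ᵥ toR u) +
      (∑ u ∈ (F ∩ Z) \ eK K, c u * (l ⬝ᵥ toR u) + ∑ i ∈ K, c (Pi.single i 1) * b i) := by
    rw [hdotx, hsplitF]
    congr 2
    refine Finset.sum_congr rfl fun i hi => ?_
    rw [hdsingle, hl0 i hi]
  have hl'x2 : l' ⬝ᵥ x = ∑ u ∈ (F ∩ Z) \ eK K, c u * (l' ⬝ᵥ toR u) +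
      ∑ i ∈ K, c (Pi.single i 1) * b i := by
    rw [hdotx, hsplitF]
    have e1 : ∑ u ∈ F \ Z, c u * (l' ⬝ᵥ toR u) = 0 := by
      refine Finset.sum_eq_zero fun u hu => ?_
      rw [(hF1 u hu).2, mul_zero]
    rw [e1, zero_add]
    congr 1
    refine Finset.sum_congr rfl fun i hi => ?_
    rw [hdsingle, (hkK' i hi).2]
  have hpos1 : 0 ≤ ∑ w ∈ projS K φ, y w * (l' ⬝ᵥ toR (g w)) := by
    refine Finset.sum_nonneg fun w hw => ?_
    rcases eq_or_lt_of_le (hy w hw) with h | h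
    · rw [← h, zero_mul]
    · refine mul_nonneg h.le ?_
      have h1 := z3 w hw
      have h2 : k' ⬝ᵥ toR (g w) = 1 := by
        have h3 : y w * (k' ⬝ᵥ toR (g w) - 1) = 0 := by linarith
        rcases mul_eq_zero.1 h3 with h4 | h4
        · exact absurd h4 h.ne'
        · linarith
      rcases hF4 _ (hφA (hg1 w hw)) with h5 | h5
      · rw [h2] at h5; exact absurd h5 (lt_irrefl _)
      · exact h5.2
  have t1 : ∀ u ∈ F \ Z, 0 ≤ c u * (l ⬝ᵥ toR u) := by
    intro u hu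
    rcases eq_or_lt_of_le (hcF u hu) with h | h
    · rw [← h, zero_mul]
    · refine mul_nonneg h.le ?_
      have h1 := z1 u hu
      have h2 : k ⬝ᵥ toR u = 1 := by
        have h3 : c u * (k ⬝ᵥ toR u - 1) = 0 := by linarith
        rcases mul_eq_zero.1 h3 with h4 | h4
        · exact absurd h4 h.ne'
        · linarith
      rcases hA u (hFA u hu) with h5 | h5
      · rw [h2] at h5; exact absurd h5 (lt_irrefl _)
      · exact h5.2
  have t2 : ∀ u ∈ (F ∩ Z) \ eK K, 0 ≤ c u * (l ⬝ᵥ toR u) - c u * (l' ⬝ᵥ toR u) ∧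
      (c u * (l ⬝ᵥ toR u) - c u * (l' ⬝ᵥ toR u) = 0 → c u = 0) := by
    intro u hu
    obtain ⟨j, _, hj, _, hl'j, _, hlt⟩ := hjz u hu
    rcases eq_or_lt_of_le (hcZ u hu) with h | h
    · rw [← h]; simp
    · have h1 := z2 u hu
      rw [← hj, hdsingle] at h1
      have hk : k j = 0 := (mul_eq_zero.1 h1).resolve_left (by rw [hj]; exact h.ne')
      have hb' := hlt hk
      have h2 : l ⬝ᵥ toR u = l j := by rw [← hj, hdsingle]
      rw [h2, hl'j]
      have h3 : 0 < c u * (l j - b j) := mul_pos h (by linarith)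
      constructor
      · nlinarith
      · intro h4
        exfalso
        nlinarith
  have htot : ∑ u ∈ F \ Z, c u * (l ⬝ᵥ toR u) +
      ∑ u ∈ (F ∩ Z) \ eK K, (c u * (l ⬝ᵥ toR u) - c u * (l' ⬝ᵥ toR u)) ≤ 0 := by
    rw [Finset.sum_sub_distrib]
    linarith
  have s1 := Finset.sum_nonneg t1
  have s2 : 0 ≤ ∑ u ∈ (F ∩ Z) \ eK K, (c u * (l ⬝ᵥ toR u) - c u * (l' ⬝ᵥ toR u)) :=
    Finset.sum_nonneg fun u hu => (t2 u hu).1
  have r1 : ∀ u ∈ F \ Z, c u * (l ⬝ᵥ toR u) = 0 :=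
    (Finset.sum_eq_zero_iff_of_nonneg t1).1 (by linarith)
  have r2 : ∀ u ∈ (F ∩ Z) \ eK K, c u = 0 := by
    intro u hu
    refine (t2 u hu).2 ?_
    exact (Finset.sum_eq_zero_iff_of_nonneg (fun u hu => (t2 u hu).1)).1 (by linarith) u hu
  -- the face
  refine ⟨eK K ∪ (F \ Z).filter (fun u => 0 < c u), ?_, ?_, ?_, ?_⟩
  · rw [Fan.mem_faces]
    refine ⟨F, hF, ?_⟩
    intro u hu
    rw [mem_union] at hu
    rcases hu with h | h
    · exact (mem_inter.1 (heK h)).1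
    · exact (mem_sdiff.1 (mem_filter.1 h).1).1
  · ext u
    rw [mem_inter, mem_union, mem_filter, mem_sdiff]
    constructor
    · rintro ⟨h | h, hz⟩
      · exact h
      · exact absurd hz h.1.2
    · intro h
      exact ⟨Or.inl h, (mem_inter.1 (heK h)).2⟩
  · intro u hu
    rw [mem_sdiff, mem_union, mem_filter] at hu
    rcases hu.1 with h | h
    · exact absurd (mem_inter.1 (heK h)).2 hu.2
    · rw [hφeq, mem_filter]
      refine ⟨hFA u h.1, ?_, ?_⟩
      · have h1 := z1 u h.1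
        have h3 : c u * (k ⬝ᵥ toR u - 1) = 0 := by linarith
        rcases mul_eq_zero.1 h3 with h4 | h4
        · exact absurd h4 h.2.ne'
        · linarith
      · exact (mul_eq_zero.1 (r1 u h.1)).resolve_left h.2.ne'
  · have hρZ : (eK K ∪ (F \ Z).filter (fun u => 0 < c u)) \ Z =
        (F \ Z).filter (fun u => 0 < c u) := by
      ext u
      rw [mem_sdiff, mem_union, mem_filter, mem_sdiff]
      constructor
      · rintro ⟨h | h, hz⟩
        · exact absurd (mem_inter.1 (heK h)).2 hz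
        · exact h
      · rintro h
        exact ⟨Or.inr h, h.1.2⟩
    rw [hρZ, projS_eq]
    set R := (F \ Z).filter (fun u => 0 < c u) with hR
    refine ⟨fun w => ∑ u ∈ R.filter (fun u => pr K u = w), c u, ?_, ?_, ?_⟩
    · intro w hw
      obtain ⟨u, hu, huw⟩ := mem_image.1 hw
      refine Finset.sum_pos (fun v hv => ?_) ⟨u, mem_filter.2 ⟨hu, huw⟩⟩
      exact (mem_filter.1 (mem_filter.1 hv).1).2
    · have h1 : ∑ w ∈ R.image (pr K), (∑ u ∈ R.filter (fun u => pr K u = w), c u) • toR w =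
          ∑ u ∈ R, c u • toR (pr K u) := by
        rw [← Finset.sum_fiberwise_of_maps_to (g := pr K) (t := R.image (pr K))
          (fun u hu => Finset.mem_image_of_mem _ hu) (fun u => c u • toR (pr K u))]
        refine Finset.sum_congr rfl fun w _ => ?_
        rw [Finset.sum_smul]
        refine Finset.sum_congr rfl fun u hu => ?_
        rw [(mem_filter.1 hu).2]
      rw [h1]
      have h2 : ∑ u ∈ R, c u • toR (pr K u) = ∑ u ∈ F \ Z, c u • toR (pr K u) := by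
        refine Finset.sum_subset (Finset.filter_subset _ _) fun u hu hn => ?_
        have : c u = 0 := by
          rw [hR, mem_filter] at hn
          push Not at hn
          exact le_antisymm (hn hu) (hcF u hu)
        rw [this, zero_smul]
      rw [h2]
      funext i
      have hxi : x i = ∑ u ∈ F, c u * (u i : ℝ) := by
        have := congrFun (sum_crd hI hc x) i
        simp only [Finset.sum_apply, Pi.smul_apply, toR_apply, smul_eq_mul] at this
        exact this.symm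
      simp only [Finset.sum_apply, Pi.smul_apply, toR_apply, smul_eq_mul, pr]
      by_cases hi : i ∈ K
      · simp only [hi, if_true, Int.cast_zero, mul_zero, Finset.sum_const_zero]
        rw [hx, Finset.sum_apply]
        refine Finset.sum_eq_zero fun w hw => ?_
        rw [Pi.smul_apply, ← hg2 w hw]
        simp [pr, hi]
      · simp only [hi, if_false]
        rw [hxi, hsplitF]
        have e1 : ∑ u ∈ (F ∩ Z) \ eK K, c u * (u i : ℝ) = 0 :=
          Finset.sum_eq_zero fun u hu => by rw [r2 u hu, zero_mul]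
        have e2 : ∑ j ∈ K, c (Pi.single j 1) * (((Pi.single j 1 : Fin n → ℤ) i : ℤ) : ℝ) = 0 := by
          refine Finset.sum_eq_zero fun j hj => ?_
          have : i ≠ j := fun h => hi (h ▸ hj)
          simp [Pi.single_eq_of_ne this]
        rw [e1, e2, add_zero, add_zero]
    · rw [Finset.sum_fiberwise_of_maps_to (g := pr K) (t := R.image (pr K))
        (fun u hu => Finset.mem_image_of_mem _ hu)]
      rw [← eN]
      refine Finset.sum_subset (Finset.filter_subset _ _) fun u hu hn => ?_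
      rw [hR, mem_filter] at hn
      push Not at hn
      exact le_antisymm (hn hu) (hcF u hu)

end Cell20

theorem cellDecomp : CellDecomp := by
  classical
  intro n A Z b Φ hTri hB hb K φ hφ x N hN
  refine ⟨⟨?_, ?_⟩, ?_⟩
  · intro hx
    obtain ⟨z, hz, hzx⟩ := Set.mem_smul_set.1 hx
    have hz' : z ∈ convexHull ℝ (((projS K φ).image toR : Finset (Fin n → ℝ)) : Set (Fin n → ℝ)) := by
      rwa [Finset.coe_image]
    rw [Finset.mem_convexHull'] at hz'
    obtain ⟨wt, hw0, hw1, hwz⟩ := hz'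
    rw [Finset.sum_image (fun a _ b _ h => toR_injective h)] at hw1 hwz
    refine Cell20.exist hTri hB hb K hφ (fun w => N * wt (toR w)) ?_ x N hN ?_ ?_
    · intro w hw
      exact mul_nonneg hN.le (hw0 _ (Finset.mem_image_of_mem _ hw))
    · rw [← Finset.mul_sum, hw1, mul_one]
    · rw [← hzx, ← hwz, Finset.smul_sum]
      refine Finset.sum_congr rfl fun w _ => ?_
      rw [smul_smul]
  · rintro ⟨ρ, _, _, hsub, c, hc, hx, hcN⟩
    have hsub' : projS K (ρ \ Z) ⊆ projS K φ := Finset.image_subset_image hsub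
    refine Set.mem_smul_set.2 ⟨N⁻¹ • x, ?_, by rw [smul_smul, mul_inv_cancel₀ hN.ne', one_smul]⟩
    rw [hx, Finset.smul_sum]
    have h1 : ∀ u ∈ projS K (ρ \ Z), N⁻¹ • c u • toR u = (N⁻¹ * c u) • toR u := fun u _ => by
      rw [smul_smul]
    rw [Finset.sum_congr rfl h1]
    refine (convex_convexHull ℝ _).sum_mem ?_ ?_ ?_
    · intro u hu
      exact mul_nonneg (inv_nonneg.2 hN.le) (hc u hu).le
    · rw [← Finset.mul_sum, hcN, inv_mul_cancel₀ hN.ne']
    · intro u hu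
      exact subset_convexHull ℝ _ (Set.mem_image_of_mem _ (Finset.mem_coe.2 (hsub' hu)))
  · intro ρ hρ ρ' hρ' hK hK' c c' hc hc' heq
    exact Cell20.unique Φ K hρ hρ' hK hK' c c' hc hc' heq

end Mono
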