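import Pool.Agent.Helper20.Mono.Goals

/-!
# The Denef–Loeser expression through the dual fan, and the primal formula (2.1)

`A` is the support of `f`; `T` is a simplicial fan refining the dual fan of the Newton polyhedron
(each maximal cone of `T` lies in the dual cone of a point of `A`).  The generators of the cones of
`T` are arbitrary integer vectors (the expression `idx δ / ∏ (N(a) s + ⟨a, w⟩)` does not change if a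
generator is multiplied by a positive integer).
-/

namespace Mono

open Finset

variable {n : ℕ}

/-- The cone generated by `δ` lies in the dual cone of `τ` (the elements of `τ ∩ Z` are directions
of the face, the elements of `τ \ Z` are points of the face). -/
def InDual (A Z τ δ : Finset (Fin n → ℤ)) : Prop :=
  ∀ a ∈ δ, (∀ v ∈ τ \ Z, a ⬝ᵥ v = NA A a) ∧ ∀ v ∈ τ ∩ Z, a ⬝ᵥ v = 0

open Classical in
/-- `J_τ(s, w)`: sum over the cones of `T` of dimension `n - dim τ` in the dual cone of `τ`. -/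
noncomputable def Jsum (A Z : Finset (Fin n → ℤ)) (T : Fan n) (τ : Finset (Fin n → ℤ)) (s : ℝ)
    (w : Fin n → ℝ) : ℝ :=
  ∑ δ ∈ T.faces.filter (fun δ => δ.card + τ.card = n + 1 ∧ InDual A Z τ δ),
    (idx (δ : Set (Fin n → ℤ)) : ℝ) / ∏ a ∈ δ, ((NA A a : ℝ) * s + w ⬝ᵥ toR a)

/-- The primal sum `R_τ(s, w)`. -/
noncomputable def Fan.Rsum (Φ : Fan n) (Z τ : Finset (Fin n → ℤ)) (s : ℝ) (w : Fin n → ℝ) : ℝ :=
  ∑ F ∈ Φ.mx.filter (fun F => τ ⊆ F),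
    1 / ((idx (F : Set (Fin n → ℤ)) : ℝ) * (s + psi Z F w) * ∏ u ∈ F \ τ, crd F w u)

/-- G: the primal formula (2.1). -/
def Primal : Prop := ∀ (n : ℕ) (Φ T : Fan n) (Z : Finset (Fin n → ℤ)), Φ.Newton Z →
  Adapted (Φ.vert \ Z) T → ∀ w : Fin n → ℝ, Φ.Generic w → ∀ s : ℝ,
  (∀ F ∈ Φ.mx, s + psi Z F w ≠ 0) →
  (∀ δ ∈ T.mx, ∀ a ∈ δ, (NA (Φ.vert \ Z) a : ℝ) * s + w ⬝ᵥ toR a ≠ 0) →
  (∀ δ ∈ T.mx, ∀ a ∈ δ, w ⬝ᵥ toR a ≠ 0) →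
  ∀ τ, Φ.IsFace τ → ¬ τ ⊆ Z →
  Jsum (Φ.vert \ Z) Z T τ s w = (volZ Z τ : ℝ) * Φ.Rsum Z τ s w

/-! ### Parts of the proof -/

/-- Edge vectors of `τ` together with the directions in `Z`; `volZ Z τ = idx (edges Z τ)`. -/
def edges (Z τ : Finset (Fin n → ℤ)) : Set (Fin n → ℤ) :=
  {x | ∃ u ∈ τ \ Z, ∃ v ∈ τ \ Z, x = u - v} ∪ {x | x ∈ τ ∧ x ∈ Z}

open Classical in
/-- `u - ht(u) u₀`. -/
noncomputable def rel (Z : Finset (Fin n → ℤ)) (u₀ u : Fin n → ℤ) : Fin n → ℤ :=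
  if u ∈ Z then u else u - u₀

/-- G1: Laplace transform of the orthant through a simplicial fan. -/
def LaplaceOrthant : Prop := ∀ (n : ℕ) (T : Fan n) (R : Finset (Fin n)) (w : Fin n → ℝ),
  (∀ ε ∈ T.mxT R, ∀ a ∈ ε, w ⬝ᵥ toR a ≠ 0) → (∀ i ∈ R, w i ≠ 0) →
  ∑ ε ∈ T.mxT R, (idx (ε : Set (Fin n → ℤ)) : ℝ) / ∏ a ∈ ε, (w ⬝ᵥ toR a) = ∏ i ∈ R, (w i)⁻¹

/-- G2: lattice duality. `E` and `D` are orthogonal sets, whose ranks have sum `n - 1`. -/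
def DualLattice : Prop := ∀ (n : ℕ) (E D : Set (Fin n → ℤ)), (∀ e ∈ E, ∀ d ∈ D, e ⬝ᵥ d = 0) →
  Module.finrank ℝ (Submodule.span ℝ (toR '' E)) +
    Module.finrank ℝ (Submodule.span ℝ (toR '' D)) + 1 = n →
  ∃ κ : Fin n → ℤ, (∀ e ∈ E, κ ⬝ᵥ e = 0) ∧ toR κ ∉ Submodule.span ℝ (toR '' D) ∧
    (∀ a, (∀ e ∈ E, a ⬝ᵥ e = 0) → ∃ m : ℤ, a - m • κ ∈ sat D ∧
      (m ≠ 0 → idx (insert a D) = idx D * m.natAbs)) ∧
    (∀ x, (∀ d ∈ D, x ⬝ᵥ d = 0) → κ ⬝ᵥ x ≠ 0 →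
      idx (insert x E) = idx E * (κ ⬝ᵥ x).natAbs)

/-- The direction `σ κ` (`σ = 1` or `-1`) is admissible at `ε`: it points into the dual cone. -/
def Adm (A : Finset (Fin n → ℤ)) (u₀ κ : Fin n → ℤ) (ε : Finset (Fin n → ℤ)) (σ : ℤ) : Prop :=
  (∀ v ∈ A, (∀ a ∈ ε, a ⬝ᵥ v = NA A a) → 0 ≤ σ * (κ ⬝ᵥ (v - u₀))) ∧
  ∀ i, (∀ a ∈ ε, a i = 0) → 0 ≤ σ * κ i

open Classical in
/-- G3a: the cones of `T` of the dual cone of `τ` containing the wall `ε`, counted with sign. -/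
def SideDual : Prop := ∀ (n : ℕ) (Φ T : Fan n) (Z : Finset (Fin n → ℤ)), Φ.Newton Z →
  Adapted (Φ.vert \ Z) T → ∀ τ ε : Finset (Fin n → ℤ), Φ.IsFace τ → T.IsFace ε →
  ε.card + τ.card = n → InDual (Φ.vert \ Z) Z τ ε → ∀ u₀ ∈ τ \ Z,
  ∀ κ : Fin n → ℤ, (∀ e ∈ edges Z τ, κ ⬝ᵥ e = 0) →
    toR κ ∉ Submodule.span ℝ (toR '' (ε : Set (Fin n → ℤ))) →
  ∀ m : (Fin n → ℤ) → ℤ, (∀ a, (∀ e ∈ edges Z τ, a ⬝ᵥ e = 0) →
    a - m a • κ ∈ sat (ε : Set (Fin n → ℤ))) →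
  ∑ a ∈ T.vert.filter (fun a => a ∉ ε ∧ T.IsFace (insert a ε) ∧
      InDual (Φ.vert \ Z) Z τ (insert a ε)), (m a).sign =
  (if Adm (Φ.vert \ Z) u₀ κ ε 1 then 1 else 0) - (if Adm (Φ.vert \ Z) u₀ κ ε (-1) then 1 else 0)

open Classical in
/-- G3b: the cones of the link of `τ` whose dual cone contains `ε`, counted with sign. -/
def SidePrimal : Prop := ∀ (n : ℕ) (Φ T : Fan n) (Z : Finset (Fin n → ℤ)), Φ.Newton Z →
  Adapted (Φ.vert \ Z) T → ∀ τ ε : Finset (Fin n → ℤ), Φ.IsFace τ → T.IsFace ε →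
  ε.card + τ.card = n → InDual (Φ.vert \ Z) Z τ ε → ∀ u₀ ∈ τ \ Z,
  ∀ κ : Fin n → ℤ, (∀ e ∈ edges Z τ, κ ⬝ᵥ e = 0) →
    toR κ ∉ Submodule.span ℝ (toR '' (ε : Set (Fin n → ℤ))) →
  (if Adm (Φ.vert \ Z) u₀ κ ε 1 then 1 else 0) -
    (if Adm (Φ.vert \ Z) u₀ κ ε (-1) then 1 else 0) =
  (∑ u ∈ Φ.vert.filter (fun u => u ∉ τ ∧ Φ.IsFace (insert u τ) ∧
      InDual (Φ.vert \ Z) Z (insert u τ) ε), (κ ⬝ᵥ rel Z u₀ u).sign) +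
    if τ.card = (cs τ).card ∧ (∀ a ∈ ε, ∀ i ∈ cs τ, a i = 0) then (κ ⬝ᵥ u₀).sign else 0

/-- G4: assembly. -/
def PrimalAssembly : Prop :=
  SpanT → KFormula → LaplaceOrthant → DualLattice → SideDual → SidePrimal → Primal

end Mono
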