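import Pool.Agent.Helper20.Mono.BaseL

/-!
# The zeta function of a slice

`A` is the set of exponents of `f`, `K` a set of coordinates such that `f` vanishes on the
coordinate subspace `ℂ^K`, and `b ∈ ℝ^n` has positive entries.  The slice is
`x_k = c_k t^{b_k}` (`k ∈ K`, `c_k` general constants), `|x_j| < t^{b_j}` (`j ∉ K`), for small
`t > 0`.

* `projS K A`    : projection of `A` along `ℝ^K`;
* `cellsS A K b` : the compact faces of the Newton polyhedron in the directions `M k + l`, `M → ∞`,
                   where `k_i = 0`, `l_i = b_i` for `i ∈ K`, and `M k_i + l_i > b_i` for `i ∉ K`;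
* `zetaS A K b`  : Varchenko's product for the projections of these faces.
-/

namespace Mono

open Finset

variable {n : ℕ}

/-- Projection of `A` along the coordinate subspace of `K`: these coordinates are replaced
by `0`. -/
def projS (K : Finset (Fin n)) (A : Finset (Fin n → ℤ)) : Finset (Fin n → ℤ) :=
  A.image (fun v i => if i ∈ K then 0 else v i)

open Classical in
/-- The faces met by the slice: the compact faces (given by the sets of points of `A` on them) of
the Newton polyhedron of `A` in the directions `M k + l`, `M → ∞`, where `k ≥ 0` is normalised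
by `min_A k = 1`, and `k_i = 0`, `l_i = b_i` for `i ∈ K`, `M k_i + l_i > b_i` for `i ∉ K`. -/
noncomputable def cellsS (A : Finset (Fin n → ℤ)) (K : Finset (Fin n)) (b : Fin n → ℝ) :
    Finset (Finset (Fin n → ℤ)) :=
  A.powerset.filter (fun φ => ∃ k l : Fin n → ℝ,
    (∀ i ∈ K, k i = 0 ∧ l i = b i) ∧ (∀ i, i ∉ K → 0 < k i ∨ (k i = 0 ∧ b i < l i)) ∧
    (∀ v ∈ A, 1 < k ⬝ᵥ toR v ∨ (k ⬝ᵥ toR v = 1 ∧ 0 ≤ l ⬝ᵥ toR v)) ∧
    φ = A.filter (fun v => k ⬝ᵥ toR v = 1 ∧ l ⬝ᵥ toR v = 0))

/-- The zeta function of the slice: the product, over the faces `φ` met by the slice whose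
projection along `ℝ^K` spans a hyperplane of the smallest coordinate subspace containing it, of
`(1 - t^N)^{(-1)^{dim} Vol}`, where `dim`, `Vol` and `N` are the dimension, the normalised volume
and the lattice distance from the origin of the projection of `φ`. -/
noncomputable def zetaS (A : Finset (Fin n → ℤ)) (K : Finset (Fin n)) (b : Fin n → ℝ) :
    RatFunc ℂ :=
  ∏ φ ∈ (cellsS A K b).filter (fun φ => dimF (projS K φ) + 1 = (cs (projS K φ)).card),
    (1 - RatFunc.X ^ latDist (projS K φ)) ^ ((-1) ^ dimF (projS K φ) * nvol (projS K φ))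

end Mono
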