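import Pool.Agent.Helper20.Mono.GoalsL
import Pool.Agent.Helper20.Mono.BaseS

/-!
# Packets for the general case (slices)
-/

namespace Mono

open Finset Pointwise

variable {n : ℕ}

/-- The generators `e_k`, `k ∈ K`. -/
def eK (K : Finset (Fin n)) : Finset (Fin n → ℤ) := K.image (fun k => Pi.single k 1)

/-- The triangulation is compatible with the weights `b`. -/
def BFan (A Z : Finset (Fin n → ℤ)) (b : Fin n → ℝ) (Φ : Fan n) : Prop :=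
  ∀ F ∈ Φ.mx, ∃ k l : Fin n → ℝ,
    (∀ u ∈ F \ Z, k ⬝ᵥ toR u = 1 ∧ l ⬝ᵥ toR u = 0) ∧
    (∀ i, (Pi.single i 1 : Fin n → ℤ) ∈ F ∩ Z → k i = 0 ∧ l i = b i) ∧
    (∀ i, (Pi.single i 1 : Fin n → ℤ) ∉ F ∩ Z → 0 < k i ∨ (k i = 0 ∧ b i < l i)) ∧
    (∀ v ∈ A, 1 < k ⬝ᵥ toR v ∨ (k ⬝ᵥ toR v = 1 ∧ 0 ≤ l ⬝ᵥ toR v))

/-- S1: existence of the triangulation. -/
def FanB : Prop := ∀ (n : ℕ) (A : Finset (Fin n → ℤ)) (b : Fin n → ℝ), A.Nonempty →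
  (∀ v ∈ A, ∀ i, 0 ≤ v i) → (0 : Fin n → ℤ) ∉ A → (∀ i, 0 < b i) → LinearIndependent ℚ b →
  ∃ (Φ : Fan n) (Z : Finset (Fin n → ℤ)), Tri A Z Φ ∧ Φ.Coherent ∧ BFan A Z b Φ

/-- S2: index modulo basis vectors. -/
def IdxProj : Prop := ∀ (n : ℕ) (K : Finset (Fin n)) (B : Set (Fin n → ℤ)),
  idx (B ∪ {x | ∃ k ∈ K, x = Pi.single k 1}) =
    idx ((fun (v : Fin n → ℤ) (i : Fin n) => if i ∈ K then 0 else v i) '' B)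

/-- S3: decomposition of the cone over the projection of a cell into open simplices. -/
def CellDecomp : Prop := ∀ (n : ℕ) (A Z : Finset (Fin n → ℤ)) (b : Fin n → ℝ) (Φ : Fan n),
  Tri A Z Φ → BFan A Z b Φ → (∀ i, 0 < b i) → ∀ (K : Finset (Fin n)), ∀ φ ∈ cellsS A K b,
  ∀ (x : Fin n → ℝ) (N : ℝ), 0 < N →
  (x ∈ N • convexHull ℝ (toR '' (projS K φ : Set (Fin n → ℤ))) ↔
    ∃ ρ ∈ Φ.faces, ρ ∩ Z = eK K ∧ ρ \ Z ⊆ φ ∧ ∃ c : (Fin n → ℤ) → ℝ,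
      (∀ u ∈ projS K (ρ \ Z), 0 < c u) ∧ x = ∑ u ∈ projS K (ρ \ Z), c u • toR u ∧
        ∑ u ∈ projS K (ρ \ Z), c u = N) ∧
  (∀ ρ ∈ Φ.faces, ∀ ρ' ∈ Φ.faces, ρ ∩ Z = eK K → ρ' ∩ Z = eK K → ∀ c c' : (Fin n → ℤ) → ℝ,
    (∀ u ∈ projS K (ρ \ Z), 0 < c u) → (∀ u ∈ projS K (ρ' \ Z), 0 < c' u) →
    ∑ u ∈ projS K (ρ \ Z), c u • toR u = ∑ u ∈ projS K (ρ' \ Z), c' u • toR u → ρ = ρ')

/-- S4: the volume of the projection of a cell. -/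
def CellVol : Prop := ∀ (n : ℕ) (A Z : Finset (Fin n → ℤ)) (b : Fin n → ℝ) (Φ : Fan n),
  Tri A Z Φ → BFan A Z b Φ → (∀ i, 0 < b i) → ∀ (K : Finset (Fin n)), ∀ φ ∈ cellsS A K b,
  nvol (projS K φ) = ∑ ρ ∈ Φ.faces.filter (fun ρ => ρ ∩ Z = eK K ∧ ρ \ Z ⊆ φ ∧
    (ρ \ Z).card = dimF (projS K φ) + 1), (volZ Z ρ : ℤ)

/-- S5: the multiplicity of the slice as a sum over simplices. -/
def CellSum : Prop := ∀ (n : ℕ) (A Z : Finset (Fin n → ℤ)) (b : Fin n → ℝ) (Φ : Fan n),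
  Tri A Z Φ → BFan A Z b Φ → (∀ i, 0 < b i) → ∀ (K : Finset (Fin n)) (m : ℕ),
  ∑ φ ∈ (cellsS A K b).filter (fun φ => dimF (projS K φ) + 1 = (cs (projS K φ)).card ∧
      m ∣ latDist (projS K φ)), (-1) ^ dimF (projS K φ) * nvol (projS K φ) =
  ∑ τ ∈ Φ.faces.filter (fun τ => τ ∩ Z = eK K ∧ ¬ τ ⊆ Z ∧ τ.card = (cs τ).card ∧
      m ∣ latDistZ Z τ), (-1) ^ ((τ \ Z).card - 1) * (volZ Z τ : ℤ)

/-- S9: the lattice distances of the cells are defined. -/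
def CellLat : Prop := ∀ (n : ℕ) (A : Finset (Fin n → ℤ)) (b : Fin n → ℝ) (K : Finset (Fin n)),
  ∀ φ ∈ cellsS A K b, latDist (projS K φ) ≠ 0

/-- S6: the slice at the origin. -/
def ZetaEmpty : Prop := ∀ (n : ℕ) (A : Finset (Fin n → ℤ)) (b : Fin n → ℝ), A.Nonempty →
  (∀ v ∈ A, ∀ i, 0 ≤ v i) → (0 : Fin n → ℤ) ∉ A → (∀ i, 0 < b i) → zetaS A ∅ b = zetaV A

/-- S7: products of cyclotomic type with the same exponents. -/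
def CycloEq : Prop := ∀ (ι κ : Type) (s : Finset ι) (t : Finset κ) (N : ι → ℕ) (M : κ → ℕ)
  (e : ι → ℤ) (g : κ → ℤ), (∀ i ∈ s, N i ≠ 0) → (∀ j ∈ t, M j ≠ 0) →
  (∀ m : ℕ, ∑ i ∈ s.filter (fun i => m ∣ N i), e i = ∑ j ∈ t.filter (fun j => m ∣ M j), g j) →
  ∏ i ∈ s, (1 - RatFunc.X ^ N i : RatFunc ℂ) ^ e i =
    ∏ j ∈ t, (1 - RatFunc.X ^ M j : RatFunc ℂ) ^ g j

/-- S8: the slice of an axis when `f` vanishes on no coordinate plane through it. -/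
def ZetaAxis : Prop := FanB → CellSum → FaceSumMult → LinkTri → LinkSum → CycloEq →
  ∀ (n : ℕ) (A : Finset (Fin n → ℤ)) (b : Fin n → ℝ), A.Nonempty →
  (∀ v ∈ A, ∀ i, 0 ≤ v i) → (0 : Fin n → ℤ) ∉ A → (∀ i, 0 < b i) → LinearIndependent ℚ b →
  ∀ k : Fin n, (∀ d : ℤ, (Pi.single k d : Fin n → ℤ) ∉ A) →
  (∀ j, j ≠ k → ∃ v ∈ A, ∀ l, l ≠ j → l ≠ k → v l = 0) →
  zetaS A {k} b = zetaV (projK k A)

end Mono
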