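import Pool.Agent.Helper20.Mono.Base

/-!
# Two more definitions: projection along an axis, zeros and poles
-/

namespace Mono

/-- Projection of `A` along the `k`-th axis (the `k`-th coordinate is replaced by `0`).  If `A` is
the set of exponents of `f`, this is the set of exponents of `f` at a general point of the `k`-th
axis, up to terms that do not change the Newton polyhedron. -/
def projK {n : ℕ} (k : Fin n) (A : Finset (Fin n → ℤ)) : Finset (Fin n → ℤ) :=
  A.image (fun v => Function.update v k 0)

/-- `z` is a zero or a pole of the rational function `r`. -/
def ZeroOrPole (r : RatFunc ℂ) (z : ℂ) : Prop := r.num.eval z = 0 ∨ r.denom.eval z = 0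

end Mono
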