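import Mathlib

/-!
# Newton polyhedra, the Denef–Loeser expression and Varchenko's expression

All vectors are integer vectors `Fin n → ℤ`; `toR` is the inclusion into `ℝ^n`.

* `expo f`    : the set of exponent vectors of the polynomial `f`;
* `NA A a`    : the support function `N(a) = min_{v ∈ A} ⟨a, v⟩`;
* `cfaces A`  : the compact faces of the Newton polyhedron `conv(A) + ℝ^n_{≥0}`, each given by the
                set of points of `A` on it;
* `dimF`, `nvol`, `latDist` : dimension, normalised lattice volume and lattice distance from the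
                origin of a face;
* `Fan n`     : a simplicial fan with support `ℝ^n_{≥0}`, generated by integer vectors;
* `Adapted A T` : the fan `T` refines the dual fan of the Newton polyhedron of `A`;
* `ZDL A T`   : the Denef–Loeser expression of the local topological zeta function at the origin;
* `zetaV A`   : Varchenko's expression of the monodromy zeta function at the origin.
-/

namespace Mono

open Finset Filter Topology Pointwise

variable {n : ℕ}

/-- The inclusion `ℤ^n → ℝ^n`. -/
def toR (u : Fin n → ℤ) : Fin n → ℝ := fun i => (u i : ℝ)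

/-- The group of all integer points of the linear span of `B`. -/
def sat (B : Set (Fin n → ℤ)) : AddSubgroup (Fin n → ℤ) where
  carrier := {x | ∃ k : ℤ, k ≠ 0 ∧ k • x ∈ AddSubgroup.closure B}
  zero_mem' := ⟨1, one_ne_zero, by simp⟩
  add_mem' := by
    rintro x y ⟨k, hk, hx⟩ ⟨l, hl, hy⟩
    refine ⟨k * l, mul_ne_zero hk hl, ?_⟩
    have h1 : (k * l) • (x + y) = l • (k • x) + k • (l • y) := by
      rw [smul_add, smul_smul, smul_smul, mul_comm k l, mul_comm l k]
    rw [h1]
    exact AddSubgroup.add_mem _ (AddSubgroup.zsmul_mem _ hx l) (AddSubgroup.zsmul_mem _ hy k)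
  neg_mem' := by
    rintro x ⟨k, hk, hx⟩
    exact ⟨k, hk, by rw [smul_neg]; exact AddSubgroup.neg_mem _ hx⟩

/-- Index of the lattice generated by `B` in the lattice of all integer points of the span of
`B`: the multiplicity of the cone spanned by `B`. -/
noncomputable def idx (B : Set (Fin n → ℤ)) : ℕ := (AddSubgroup.closure B).relIndex (sat B)

/-- Lattice distance of the affine span of `τ` from the origin: the least positive value `N`
such that some integral linear form is constant equal to `N` on `τ`. -/
noncomputable def latDist (τ : Finset (Fin n → ℤ)) : ℕ :=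
  sInf {N : ℕ | 0 < N ∧ ∃ k : Fin n → ℤ, ∀ u ∈ τ, k ⬝ᵥ u = (N : ℤ)}

/-- The smallest coordinate subspace containing `τ`, as a set of indices. -/
def cs (τ : Finset (Fin n → ℤ)) : Finset (Fin n) := univ.filter (fun i => ∃ u ∈ τ, u i ≠ 0)

/-- `c` is a coefficient function expressing `x` through the vectors of `F`. -/
def IsCrd (F : Finset (Fin n → ℤ)) (x : Fin n → ℝ) (c : (Fin n → ℤ) → ℝ) : Prop :=
  (∀ u, u ∉ F → c u = 0) ∧ x = ∑ u ∈ F, c u • toR u

open Classical in
/-- The coordinates of `x` with respect to the vectors of `F` (zero if there are none). -/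
noncomputable def crd (F : Finset (Fin n → ℤ)) (x : Fin n → ℝ) : (Fin n → ℤ) → ℝ :=
  if h : ∃ c, IsCrd F x c then Classical.choose h else 0

/-- Real linear independence of the integer vectors in `F`. -/
def Indep (F : Finset (Fin n → ℤ)) : Prop :=
  LinearIndependent ℝ (fun u : F => toR (u : Fin n → ℤ))

/-- A simplicial fan with support `ℝ^n_{≥0}` whose cones are generated by nonnegative integer
vectors; `mx` is the set of (generating sets of) maximal cones: each is a basis of `ℝ^n`, their
cones cover the orthant, and a point in two of the cones is a combination of the common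
generators. -/
structure Fan (n : ℕ) where
  vert : Finset (Fin n → ℤ)
  mx : Finset (Finset (Fin n → ℤ))
  vert_nonneg : ∀ u ∈ vert, ∀ i, 0 ≤ u i
  mx_sub : ∀ F ∈ mx, F ⊆ vert
  mx_card : ∀ F ∈ mx, F.card = n
  mx_indep : ∀ F ∈ mx, Indep F
  cover : ∀ x : Fin n → ℝ, (∀ i, 0 ≤ x i) → ∃ F ∈ mx, ∀ u, 0 ≤ crd F x u
  inter : ∀ F ∈ mx, ∀ F' ∈ mx, ∀ x : Fin n → ℝ, (∀ u, 0 ≤ crd F x u) →
    (∀ u, 0 ≤ crd F' x u) → ∀ u, u ∉ F' → crd F x u = 0

/-- All faces (including the empty one). -/
def Fan.faces (Φ : Fan n) : Finset (Finset (Fin n → ℤ)) := Φ.mx.biUnion Finset.powerset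

/-- The exponent vectors of the monomials of `f`. -/
noncomputable def expo (f : MvPolynomial (Fin n) ℂ) : Finset (Fin n → ℤ) :=
  f.support.image (fun d i => (d i : ℤ))

/-- The support function `N(a) = min_{v ∈ A} ⟨a, v⟩`. -/
noncomputable def NA (A : Finset (Fin n → ℤ)) (a : Fin n → ℤ) : ℤ := sInf {z | ∃ v ∈ A, z = a ⬝ᵥ v}

/-- `T` refines the dual fan of the Newton polyhedron of `A`: on each maximal cone of `T` the
support function is given by one point of `A`. -/
def Adapted (A : Finset (Fin n → ℤ)) (T : Fan n) : Prop :=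
  ∀ δ ∈ T.mx, ∃ v ∈ A, ∀ a ∈ δ, a ⬝ᵥ v = NA A a

/-- The points of `A` on the face of direction `a` of the Newton polyhedron of `A`. -/
noncomputable def face (A : Finset (Fin n → ℤ)) (a : Fin n → ℤ) : Finset (Fin n → ℤ) :=
  A.filter (fun v => a ⬝ᵥ v = NA A a)

open Classical in
/-- The compact faces of the Newton polyhedron of `A`, each given by the points of `A` on it: these
are the faces in the directions `a` with positive coordinates. -/
noncomputable def cfaces (A : Finset (Fin n → ℤ)) : Finset (Finset (Fin n → ℤ)) :=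
  A.powerset.filter (fun φ => ∃ a : Fin n → ℤ, (∀ i, 0 < a i) ∧ φ = face A a)

/-- Dimension of the convex hull of `φ`. -/
noncomputable def dimF (φ : Finset (Fin n → ℤ)) : ℕ :=
  Module.finrank ℝ (vectorSpan ℝ (toR '' (φ : Set (Fin n → ℤ))))

/-- Number of integer points of the `k`-th multiple of the convex hull of `φ`. -/
noncomputable def ehr (φ : Finset (Fin n → ℤ)) (k : ℕ) : ℕ :=
  Nat.card {x : Fin n → ℤ // toR x ∈ (k : ℝ) • convexHull ℝ (toR '' (φ : Set (Fin n → ℤ)))}

open Classical in
/-- Normalised lattice volume of the convex hull of `φ`: the integer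
`d! lim #(k conv φ ∩ ℤ^n) / k^d`, `d = dim φ`. -/
noncomputable def nvol (φ : Finset (Fin n → ℤ)) : ℤ :=
  if h : ∃ V : ℤ, Tendsto (fun k : ℕ => ((dimF φ).factorial : ℝ) * ehr φ k / (k : ℝ) ^ dimF φ)
    atTop (𝓝 (V : ℝ)) then h.choose else 0

open Classical in
/-- The Denef–Loeser expression of the local topological zeta function at the origin: the sum over
the compact faces `φ` (of dimension `d`) of `c Vol(φ) J_φ(s)`, where `c = 1` if `d = 0` and
`c = (-1)^d s / (s + 1)` otherwise, and `J_φ(s)` is the sum over the cones `δ` of dimension `n - d`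
of `T` in the dual cone of `φ` of `mult(δ) / ∏_{a ∈ δ} (N(a) s + |a|)`. -/
noncomputable def ZDL (A : Finset (Fin n → ℤ)) (T : Fan n) : RatFunc ℂ :=
  ∑ φ ∈ cfaces A,
    (if dimF φ = 0 then 1 else RatFunc.X / (RatFunc.X + 1) * (-1) ^ dimF φ) *
      RatFunc.C (nvol φ : ℂ) *
    ∑ δ ∈ T.faces.filter (fun δ => δ.card + dimF φ = n ∧ ∀ a ∈ δ, ∀ v ∈ φ, a ⬝ᵥ v = NA A a),
      RatFunc.C (idx (δ : Set (Fin n → ℤ)) : ℂ) /
        ∏ a ∈ δ, (RatFunc.C (NA A a : ℂ) * RatFunc.X + RatFunc.C (∑ i, (a i : ℂ)))

/-- Varchenko's expression of the monodromy zeta function at the origin: the product over the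
compact faces `φ` which span a hyperplane of the smallest coordinate subspace containing them of
`(1 - t^N)^{(-1)^{dim φ} Vol(φ)}`, `N` the lattice distance from the origin. -/
noncomputable def zetaV (A : Finset (Fin n → ℤ)) : RatFunc ℂ :=
  ∏ φ ∈ (cfaces A).filter (fun φ => dimF φ + 1 = (cs φ).card),
    (1 - RatFunc.X ^ latDist φ) ^ ((-1) ^ dimF φ * nvol φ)

end Mono
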