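import Pool.Agent.Helper20.Mono.Base

/-!
# Combinatorial data for the monodromy conjecture of Newton nondegenerate singularities

The basic definitions are in `Base.lean`.
* `vol τ`   : normalised lattice volume of the simplex with vertex set `τ`.
-/

namespace Mono

open Finset

variable {n : ℕ}

/-- Normalised lattice volume of the simplex with vertex set `τ`: the index of the lattice
generated by its edges. -/
noncomputable def vol (τ : Finset (Fin n → ℤ)) : ℕ :=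
  idx {x | ∃ u ∈ τ, ∃ v ∈ τ, x = u - v}

/-- Normalised lattice volume of the projection of `τ \ Z` modulo the span of `τ ∩ Z`. -/
noncomputable def volZ (Z τ : Finset (Fin n → ℤ)) : ℕ :=
  idx ({x | ∃ u ∈ τ \ Z, ∃ v ∈ τ \ Z, x = u - v} ∪ {x | x ∈ τ ∧ x ∈ Z})

/-- Lattice distance from the origin, modulo the span of `τ ∩ Z`. -/
noncomputable def latDistZ (Z τ : Finset (Fin n → ℤ)) : ℕ :=
  sInf {N : ℕ | 0 < N ∧ ∃ k : Fin n → ℤ, (∀ u ∈ τ \ Z, k ⬝ᵥ u = (N : ℤ)) ∧
    ∀ u ∈ τ ∩ Z, k ⬝ᵥ u = 0}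

/-- The linear form of the cone `F` which is `1` on the generators outside `Z` and `0` on those
in `Z` (`Z` is the set of generators `e_k` of height zero; `Z = ∅` in the convenient case). -/
noncomputable def psi (Z F : Finset (Fin n → ℤ)) (x : Fin n → ℝ) : ℝ := ∑ u ∈ F \ Z, crd F x u

namespace Fan

variable (Φ : Fan n)

/-- `τ` generates a cone of the fan. -/
def IsFace (τ : Finset (Fin n → ℤ)) : Prop := ∃ F ∈ Φ.mx, τ ⊆ F

/-- The fan is coherent (regular, projective): there is a strictly convex piecewise linear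
function. -/
def Coherent : Prop := ∃ h : (Fin n → ℤ) → ℝ, ∀ F ∈ Φ.mx, ∃ k : Fin n → ℝ,
  (∀ u ∈ F, k ⬝ᵥ toR u = h u) ∧ ∀ u ∈ Φ.vert, u ∉ F → k ⬝ᵥ toR u < h u

/-- The cones of dimension `|T|` in the coordinate subspace `ℝ^T`. -/
def mxT (T : Finset (Fin n)) : Finset (Finset (Fin n → ℤ)) :=
  Φ.faces.filter (fun τ => τ.card = T.card ∧ ∀ u ∈ τ, ∀ i, i ∉ T → u i = 0)

/-- The Newton condition: `Z` consists of basis vectors, and each maximal cone `F` lies over a
facet (compact if `F ∩ Z = ∅`) of the Newton polyhedron `conv(vert \ Z) + ℝ^n_{≥0}`. -/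
def Newton (Z : Finset (Fin n → ℤ)) : Prop :=
  Z ⊆ Φ.vert ∧ (∀ z ∈ Z, ∃ k : Fin n, z = Pi.single k 1) ∧
  ∀ F ∈ Φ.mx, (∀ u ∈ Φ.vert \ Z, 1 ≤ psi Z F (toR u)) ∧
    ∀ i : Fin n, 0 ≤ psi Z F (Pi.single i 1)

/-- Sum of Varchenko's multiplicities: `S` is a set of height-zero generators. -/
noncomputable def mult (Z S : Finset (Fin n → ℤ)) (m : ℕ) : ℤ :=
  ∑ τ ∈ Φ.faces.filter (fun τ => S ⊆ τ ∧ ¬ τ ⊆ Z ∧ τ.card = (cs τ).card ∧ m ∣ latDistZ Z τ),
    (-1) ^ (n - τ.card) * (volZ Z τ : ℤ)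

end Fan

end Mono
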