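import Pool.Agent.Helper20.Mono.GoalsH

/-! Final assembly in the convenient case, from the packets. -/

namespace Mono

namespace Fin20

open Finset

variable {n : ℕ}

theorem nonneg_expo (f : MvPolynomial (Fin n) ℂ) : ∀ v ∈ expo f, ∀ i, 0 ≤ v i := by
  intro v hv i
  simp only [expo, mem_image] at hv
  obtain ⟨d, _, rfl⟩ := hv
  simp

theorem zero_notMem_expo (f : MvPolynomial (Fin n) ℂ) (h0 : f.coeff 0 = 0) :
    (0 : Fin n → ℤ) ∉ expo f := by
  intro h
  simp only [expo, mem_image] at h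
  obtain ⟨d, hd, hd0⟩ := h
  have : d = 0 := by
    ext i
    have := congrFun hd0 i
    simpa using this
  rw [this] at hd
  exact (MvPolynomial.mem_support_iff.1 hd) h0

theorem genOrthant_expo (f : MvPolynomial (Fin n) ℂ) (h0 : f.coeff 0 = 0)
    (hc : ∀ i, ∃ d : ℕ, f.coeff (Finsupp.single i d) ≠ 0) : GenOrthant (expo f) := by
  refine ⟨nonneg_expo f, zero_notMem_expo f h0, fun i => ?_⟩
  obtain ⟨d, hd⟩ := hc i
  have hd0 : d ≠ 0 := by
    rintro rfl
    rw [Finsupp.single_zero] at hd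
    exact hd h0
  refine ⟨Pi.single i (d : ℤ), ?_, d, by positivity, rfl⟩
  simp only [expo, mem_image]
  refine ⟨Finsupp.single i d, MvPolynomial.mem_support_iff.2 hd, ?_⟩
  funext j
  by_cases hj : j = i
  · subst hj; simp
  · simp [Pi.single_apply, Finsupp.single_apply, hj, Ne.symm hj]

theorem NA_pos {A : Finset (Fin n → ℤ)} (hA : A.Nonempty) (hnn : ∀ v ∈ A, ∀ i, 0 ≤ v i)
    (h0 : (0 : Fin n → ℤ) ∉ A) {a : Fin n → ℤ} (ha : ∀ i, 0 < a i) : 0 < NA A a := by
  have hne : {z | ∃ v ∈ A, z = a ⬝ᵥ v}.Nonempty := by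
    obtain ⟨v, hv⟩ := hA
    exact ⟨a ⬝ᵥ v, v, hv, rfl⟩
  have hpos : ∀ v ∈ A, 0 < a ⬝ᵥ v := by
    intro v hv
    have hv0 : v ≠ 0 := fun h => h0 (h ▸ hv)
    obtain ⟨i, hi⟩ := Function.ne_iff.1 hv0
    have h1 : 0 < v i := lt_of_le_of_ne (hnn v hv i) (Ne.symm hi)
    have h2 : 0 < a i * v i := mul_pos (ha i) h1
    exact lt_of_lt_of_le h2 (Finset.single_le_sum (f := fun i => a i * v i)
      (fun j _ => mul_nonneg (ha j).le (hnn v hv j)) (Finset.mem_univ i))
  have hbdd : BddBelow {z | ∃ v ∈ A, z = a ⬝ᵥ v} := by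
    refine ⟨0, ?_⟩
    rintro z ⟨v, hv, rfl⟩
    exact (hpos v hv).le
  obtain ⟨v, hv, hz⟩ := Int.csInf_mem hne hbdd
  unfold NA
  rw [hz]
  exact hpos v hv

theorem latDist_ne_zero {A : Finset (Fin n → ℤ)} (hA : A.Nonempty)
    (hnn : ∀ v ∈ A, ∀ i, 0 ≤ v i) (h0 : (0 : Fin n → ℤ) ∉ A) {φ : Finset (Fin n → ℤ)}
    (hφ : φ ∈ cfaces A) : latDist φ ≠ 0 := by
  simp only [cfaces, mem_filter, mem_powerset] at hφ
  obtain ⟨_, a, ha, hfa⟩ := hφ
  have hN := NA_pos hA hnn h0 ha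
  have hne : {N : ℕ | 0 < N ∧ ∃ k : Fin n → ℤ, ∀ u ∈ φ, k ⬝ᵥ u = (N : ℤ)}.Nonempty := by
    refine ⟨(NA A a).toNat, ?_, a, ?_⟩
    · omega
    · intro u hu
      rw [hfa] at hu
      simp only [face, mem_filter] at hu
      rw [hu.2]
      omega
  have := (Nat.sInf_mem hne).1
  unfold latDist
  omega

theorem primitive_exp (q : ℚ) :
    IsPrimitiveRoot (Complex.exp (2 * Real.pi * Complex.I * (-(q : ℂ)))) q.den := by
  have hden : (q.den : ℕ) ≠ 0 := q.den_nz
  have h1 := Complex.isPrimitiveRoot_exp q.den hden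
  have h2 := h1.zpow_of_gcd_eq_one (-q.num) (by
    have := q.reduced
    rw [Int.gcd_eq_natAbs] 
    simpa [Nat.Coprime] using this)
  have key : Complex.exp (2 * Real.pi * Complex.I * (-(q : ℂ))) =
      Complex.exp (2 * Real.pi * Complex.I / (q.den : ℂ)) ^ (-q.num) := ?_
  · rw [key]; exact h2
  rw [← Complex.exp_int_mul]
  congr 1
  have hq : (q : ℂ) = (q.num : ℂ) / (q.den : ℂ) := by
    exact_mod_cast congrArg (fun x : ℚ => (x : ℂ)) (Rat.num_div_den q).symm
  rw [hq]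
  push_cast
  have : (q.den : ℂ) ≠ 0 := by exact_mod_cast hden
  field_simp

/-- The sum over the simplices is, up to sign, the multiplicity. -/
theorem mult_eq (Φ : Fan n) (m : ℕ) :
    Φ.mult ∅ ∅ m = (-1) ^ (n - 1) *
      ∑ τ ∈ Φ.faces.filter (fun τ => τ.Nonempty ∧ τ ⊆ Φ.vert ∧ τ.card = (cs τ).card ∧
        m ∣ latDist τ), (-1) ^ (τ.card - 1) * (vol τ : ℤ) := by
  unfold Fan.mult
  rw [Finset.mul_sum]
  refine Finset.sum_congr ?_ ?_
  · ext τ
    simp only [mem_filter]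
    constructor
    · rintro ⟨h1, _, h3, h4, h5⟩
      refine ⟨h1, ?_, ?_, h4, ?_⟩
      · rw [Finset.subset_empty] at h3
        exact Finset.nonempty_iff_ne_empty.2 h3
      · have : Φ.IsFace τ := by simpa [Fan.faces, Fan.IsFace] using h1
        obtain ⟨F, hF, hs⟩ := this
        exact hs.trans (Φ.mx_sub F hF)
      · simpa [latDistZ, latDist] using h5
    · rintro ⟨h1, h2, _, h4, h5⟩
      refine ⟨h1, by simp, ?_, h4, ?_⟩
      · rw [Finset.subset_empty]
        exact Finset.nonempty_iff_ne_empty.1 h2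
      · simpa [latDistZ, latDist] using h5
  · intro τ hτ
    simp only [mem_filter] at hτ
    have hcard : τ.card ≤ n := by
      have : Φ.IsFace τ := by simpa [Fan.faces, Fan.IsFace] using hτ.1
      obtain ⟨F, hF, hs⟩ := this
      exact (Finset.card_le_card hs).trans (Φ.mx_card F hF).le
    have hpos : 0 < τ.card := Finset.card_pos.2 hτ.2.1
    have hv : volZ ∅ τ = vol τ := by
      unfold volZ vol
      congr 1
      ext x
      simp
    rw [hv, ← mul_assoc, ← pow_add]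
    congr 1
    obtain ⟨k, hk⟩ : ∃ k, n = τ.card + k := ⟨n - τ.card, by omega⟩
    have e1 : n - 1 + (τ.card - 1) = (n - τ.card) + 2 * (τ.card - 1) := by omega
    rw [e1, pow_add, pow_mul]
    simp

theorem final (hNF : NewtonFanConv) (hNice : NiceConv) (hDF : DualFan) (hZ : ZFormula)
    (hE : ZEval) (hP : PoleLemma) (hM : ClassMain) (hFS : FaceSumMult) (hC : CycloLemma)
    (hn : 0 < n) (f : MvPolynomial (Fin n) ℂ) (h0 : f.coeff 0 = 0)
    (hc : ∀ i, ∃ d : ℕ, f.coeff (Finsupp.single i d) ≠ 0) :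
    (∃ T : Fan n, Adapted (expo f) T) ∧
    ∀ T : Fan n, Adapted (expo f) T → ∀ s₀ : ℂ, (ZDL (expo f) T).denom.eval s₀ = 0 →
      (∃ k : ℤ, s₀ = k) ∨
      (zetaV (expo f)).num.eval (Complex.exp (2 * Real.pi * Complex.I * s₀)) = 0 ∨
      (zetaV (expo f)).denom.eval (Complex.exp (2 * Real.pi * Complex.I * s₀)) = 0 := by
  have hG := genOrthant_expo f h0 hc
  have hnn := nonneg_expo f
  have h0A := zero_notMem_expo f h0
  have hne : (expo f).Nonempty := by
    obtain ⟨r, hr, _⟩ := hG.2.2 ⟨0, hn⟩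
    exact ⟨r, hr⟩
  refine ⟨hDF n _ hne hnn, fun T hT s₀ hs₀ => ?_⟩
  obtain ⟨Φ, hvert, hNew, hCoh⟩ := hNF n _ hG
  have hTri := hNice n _ Φ hn hG hvert hNew
  obtain ⟨q, hq, hpos, hZf⟩ := hZ n _ ∅ Φ hn hTri
  have hpole := hP (ZDL (expo f) T) (Φ.mx.image (fun F => psi ∅ F (fun _ => (1 : ℝ)))) q (by
    intro s hs _
    have h1 := hE n (expo f) T hnn s hs
    refine ⟨h1.1, ?_⟩
    rw [h1.2, hZf T hT s hs]) s₀ hs₀
  rcases hpole with h | ⟨a, _, hqa, hsa⟩
  · exact Or.inl ⟨-1, by simp [h]⟩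
  · have hex : ∃ σ c, Φ.IsClass σ c ∧ ∑ t ∈ σ \ ∅, c t = a ∧ ¬ Φ.Kill ∅ σ := by
      by_contra hcon
      push Not at hcon
      exact hqa (hq a (fun σ c h1 h2 => hcon σ c h1 h2))
    obtain ⟨σ, c, hcl, hsum, hk⟩ := hex
    obtain ⟨r, hr, hmain⟩ := hM n Φ hCoh ∅ σ hNew c hcl
    have har : a = (r : ℝ) := by rw [← hsum, hr]
    have hs' : s₀ = -(r : ℂ) := by rw [hsa, har]; push_cast; rfl
    by_cases hden : r.den = 1
    · left
      refine ⟨-r.num, ?_⟩
      rw [hs']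
      have : r = (r.num : ℚ) := by
        conv_lhs => rw [← Rat.num_div_den r]
        rw [hden]; simp
      rw [this]
      push_cast
      simp
    · right
      have hmult : Φ.mult ∅ ∅ r.den ≠ 0 := by
        intro h
        apply hk
        apply hmain hden
        simpa using h
      rw [mult_eq Φ r.den, hvert, ← hFS n _ ∅ Φ hTri r.den] at hmult
      have hsumne := right_ne_zero_of_mul hmult
      have hprim := primitive_exp r
      rw [← hs'] at hprim
      have := hC (Finset (Fin n → ℤ)) ((cfaces (expo f)).filter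
        (fun φ => dimF φ + 1 = (cs φ).card)) latDist (fun φ => (-1) ^ dimF φ * nvol φ) r.den _
        (by
          intro φ hφ
          exact latDist_ne_zero hne hnn h0A (Finset.mem_filter.1 hφ).1) hprim r.den_nz (by
          rw [Finset.filter_filter]
          exact hsumne)
      exact this

end Fin20

end Mono
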