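import Pool.Agent.Helper20.Mono.GoalsL
import Pool.Agent.Helper20.Mono.Final

/-! Final assembly: polynomials whose zero set contains no coordinate plane of dimension two. -/

namespace Mono

namespace Fin20

open Finset

variable {n : ℕ}

/-- Varchenko's exponent of the primitive `m`-th roots of unity. -/
noncomputable def EV (A : Finset (Fin n → ℤ)) (m : ℕ) : ℤ :=
  ∑ φ ∈ (cfaces A).filter (fun φ => dimF φ + 1 = (cs φ).card ∧ m ∣ latDist φ),
    (-1) ^ dimF φ * nvol φ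

theorem zop_of_EV (hC : CycloLemma) {A : Finset (Fin n → ℤ)} (hA : A.Nonempty)
    (hnn : ∀ v ∈ A, ∀ i, 0 ≤ v i) (h0 : (0 : Fin n → ℤ) ∉ A) {m : ℕ} (hm : m ≠ 0) {ω : ℂ}
    (hω : IsPrimitiveRoot ω m) (hE : EV A m ≠ 0) : ZeroOrPole (zetaV A) ω := by
  refine hC (Finset (Fin n → ℤ)) ((cfaces A).filter
    (fun φ => dimF φ + 1 = (cs φ).card)) latDist (fun φ => (-1) ^ dimF φ * nvol φ) m ω ?_ hω hm ?_
  · intro φ hφ
    exact latDist_ne_zero hA hnn h0 (Finset.mem_filter.1 hφ).1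
  · rw [Finset.filter_filter]
    exact hE

theorem isFace_of_mem {Φ : Fan n} {τ : Finset (Fin n → ℤ)} (h : τ ∈ Φ.faces) : Φ.IsFace τ := by
  simpa [Fan.faces, Fan.IsFace] using h

theorem psi_eq_dot {Z F : Finset (Fin n → ℤ)} (h : Indep F) (hc : F.card = n) (v : Fin n → ℤ) :
    psi Z F (toR v) = ∑ i, (v i : ℝ) * psi Z F (Pi.single i 1) := by
  have h1 : toR v = ∑ i, (v i : ℝ) • (Pi.single i (1 : ℝ) : Fin n → ℝ) := by
    funext j
    simp [toR_apply, Finset.sum_apply, Pi.single_apply]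
  have h2 : ∀ s : Finset (Fin n), psi Z F (∑ i ∈ s, (v i : ℝ) • (Pi.single i (1 : ℝ) : Fin n → ℝ))
      = ∑ i ∈ s, (v i : ℝ) * psi Z F (Pi.single i 1) := by
    intro s
    classical
    induction s using Finset.induction_on with
    | empty =>
      have := psi_smul Z h hc 0 0
      simpa using this
    | insert a s ha ih =>
      rw [Finset.sum_insert ha, Finset.sum_insert ha, psi_add Z h hc, psi_smul Z h hc, ih]
  rw [h1, h2]

/-- No two axis directions with `ψ = 0`. -/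
theorem no_two {A Z : Finset (Fin n → ℤ)} {Φ : Fan n} (hTri : Tri A Z Φ)
    (hp : ∀ i j : Fin n, i ≠ j → ∃ v ∈ A, ∀ l, l ≠ i → l ≠ j → v l = 0)
    {F : Finset (Fin n → ℤ)} (hF : F ∈ Φ.mx) {i j : Fin n} (hij : i ≠ j)
    (hi : psi Z F (Pi.single i 1) = 0) (hj : psi Z F (Pi.single j 1) = 0) : False := by
  obtain ⟨_, _, _, hd, hvert, hN, _⟩ := hTri
  obtain ⟨v, hv, hvl⟩ := hp i j hij
  have h1 := (hN.2.2 F hF).1 v (by
    rw [hvert, mem_sdiff, mem_union]
    exact ⟨Or.inl hv, Finset.disjoint_left.1 hd hv⟩)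
  rw [psi_eq_dot (Φ.mx_indep F hF) (Φ.mx_card F hF)] at h1
  have h2 : ∑ l, (v l : ℝ) * psi Z F (Pi.single l 1) = 0 := by
    refine Finset.sum_eq_zero fun l _ => ?_
    by_cases hli : l = i
    · rw [hli, hi, mul_zero]
    · by_cases hlj : l = j
      · rw [hlj, hj, mul_zero]
      · rw [hvl l hli hlj]; simp
  rw [h2] at h1
  norm_num at h1

theorem psi_single_of_mem {Z F : Finset (Fin n → ℤ)} {Φ : Fan n} (hF : F ∈ Φ.mx) {k : Fin n}
    (hk : (Pi.single k 1 : Fin n → ℤ) ∈ F) (hkZ : (Pi.single k 1 : Fin n → ℤ) ∈ Z) :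
    psi Z F (Pi.single k 1) = 0 := by
  have h1 := psi_toR Z (Φ.mx_indep F hF) hk
  have h2 : toR (Pi.single k 1 : Fin n → ℤ) = (Pi.single k (1 : ℝ) : Fin n → ℝ) := by
    funext j
    by_cases hj : j = k
    · subst hj; simp
    · simp [hj]
  rw [h2] at h1
  rw [h1, if_pos hkZ]

/-- The part of the multiplicity at the axis `k`. -/
theorem axis_part (hFS : FaceSumMult) (hLT : LinkTri) (hLS : LinkSum)
    {A Z : Finset (Fin n → ℤ)} {Φ : Fan n} (hTri : Tri A Z Φ)
    (hp : ∀ i j : Fin n, i ≠ j → ∃ v ∈ A, ∀ l, l ≠ i → l ≠ j → v l = 0) (k : Fin n)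
    (hk : (Pi.single k 1 : Fin n → ℤ) ∈ Z) (m : ℕ)
    (hE : Φ.IsFace {(Pi.single k 1 : Fin n → ℤ)} →
      (projK k A).Nonempty → (∀ v ∈ projK k A, ∀ i, 0 ≤ v i) →
      (0 : Fin n → ℤ) ∉ projK k A → EV (projK k A) m = 0) :
    ∑ τ ∈ Φ.faces.filter (fun τ => Pi.single k 1 ∈ τ ∧ ¬ τ ⊆ Z ∧ τ.card = (cs τ).card ∧
      m ∣ latDistZ Z τ), (-1) ^ (n - τ.card) * (volZ Z τ : ℤ) = 0 := by
  by_cases hface : Φ.IsFace {(Pi.single k 1 : Fin n → ℤ)}
  · have hpos : ∀ F ∈ Φ.mx, (Pi.single k 1 : Fin n → ℤ) ∈ F → ∀ i, i ≠ k →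
        0 < psi Z F (Pi.single i 1) := by
      intro F hF hkF i hik
      refine lt_of_le_of_ne ((hTri.2.2.2.2.2.1.2.2 F hF).2 i) ?_
      intro h
      exact no_two hTri hp hF hik h.symm (psi_single_of_mem hF hkF hk)
    obtain ⟨hinj, Ψ, hTriΨ, hmx⟩ := hLT n A Z Φ k hTri hk hface hpos
    rw [hLS n A Z Φ Ψ k hTri hk hface hpos hinj hTriΨ hmx m, ← hFS n _ _ Ψ hTriΨ m]
    have := hE hface hTriΨ.1 hTriΨ.2.1 hTriΨ.2.2.1
    unfold EV at this
    rw [this, mul_zero]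
  · refine Finset.sum_eq_zero fun τ hτ => ?_
    exfalso
    rw [mem_filter] at hτ
    apply hface
    obtain ⟨F, hF, hs⟩ := isFace_of_mem hτ.1
    exact ⟨F, hF, by simpa using hs hτ.2.1⟩

/-- The part of the multiplicity at the origin. -/
theorem origin_part (hFS : FaceSumMult) {A Z : Finset (Fin n → ℤ)} {Φ : Fan n}
    (hTri : Tri A Z Φ) (m : ℕ) :
    ∑ τ ∈ Φ.faces.filter (fun τ => Disjoint τ Z ∧ ¬ τ ⊆ Z ∧ τ.card = (cs τ).card ∧
      m ∣ latDistZ Z τ), (-1) ^ (n - τ.card) * (volZ Z τ : ℤ) = (-1) ^ (n - 1) * EV A m := by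
  unfold EV
  rw [hFS n A Z Φ hTri m, Finset.mul_sum]
  obtain ⟨_, _, _, hd, hvert, _, _⟩ := hTri
  have hlat : ∀ τ : Finset (Fin n → ℤ), Disjoint τ Z → latDistZ Z τ = latDist τ := by
    intro τ hτ
    unfold latDistZ latDist
    rw [Finset.sdiff_eq_self_of_disjoint hτ, Finset.disjoint_iff_inter_eq_empty.1 hτ]
    simp
  have hvol : ∀ τ : Finset (Fin n → ℤ), Disjoint τ Z → volZ Z τ = vol τ := by
    intro τ hτ
    unfold volZ vol
    rw [Finset.sdiff_eq_self_of_disjoint hτ]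
    congr 1
    ext x
    simp only [Set.mem_union, Set.mem_setOf_eq]
    constructor
    · rintro (h | ⟨h1, h2⟩)
      · exact h
      · exact absurd h2 (Finset.disjoint_left.1 hτ h1)
    · exact fun h => Or.inl h
  refine Finset.sum_congr ?_ ?_
  · ext τ
    simp only [mem_filter]
    constructor
    · rintro ⟨h1, h2, h3, h4, h5⟩
      refine ⟨h1, ?_, ?_, h4, ?_⟩
      · rw [Finset.nonempty_iff_ne_empty]
        rintro rfl
        exact h3 (Finset.empty_subset _)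
      · obtain ⟨F, hF, hs⟩ := isFace_of_mem h1
        intro u hu
        have := Φ.mx_sub F hF (hs hu)
        rw [hvert, mem_union] at this
        exact this.resolve_right (Finset.disjoint_left.1 h2 hu)
      · rwa [hlat τ h2] at h5
    · rintro ⟨h1, h2, h3, h4, h5⟩
      have hdis : Disjoint τ Z := Finset.disjoint_of_subset_left h3 hd
      refine ⟨h1, hdis, ?_, h4, ?_⟩
      · intro h
        obtain ⟨u, hu⟩ := h2
        exact Finset.disjoint_left.1 hdis hu (h hu)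
      · rwa [hlat τ hdis]
  · intro τ hτ
    rw [mem_filter] at hτ
    have hcard : τ.card ≤ n := by
      obtain ⟨F, hF, hs⟩ := isFace_of_mem hτ.1
      exact (Finset.card_le_card hs).trans (Φ.mx_card F hF).le
    have hpos : 0 < τ.card := Finset.card_pos.2 hτ.2.1
    rw [hvol τ (Finset.disjoint_of_subset_left hτ.2.2.1 hd), ← mul_assoc, ← pow_add]
    congr 1
    have e1 : n - 1 + (τ.card - 1) = (n - τ.card) + 2 * (τ.card - 1) := by omega
    rw [e1, pow_add, pow_mul]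
    simp

/-- If all exponents at the origin and at general points of the axes vanish, then so does the
multiplicity attached to `S ⊆ Z`. -/
theorem mult_zero (hFS : FaceSumMult) (hLT : LinkTri) (hLS : LinkSum)
    {A Z : Finset (Fin n → ℤ)} {Φ : Fan n} (hTri : Tri A Z Φ)
    (hp : ∀ i j : Fin n, i ≠ j → ∃ v ∈ A, ∀ l, l ≠ i → l ≠ j → v l = 0) (m : ℕ)
    {S : Finset (Fin n → ℤ)} (hS : S ⊆ Z) (h0 : EV A m = 0)
    (hE : ∀ k : Fin n, (Pi.single k 1 : Fin n → ℤ) ∈ Z →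
      Φ.IsFace {(Pi.single k 1 : Fin n → ℤ)} →
      (projK k A).Nonempty → (∀ v ∈ projK k A, ∀ i, 0 ≤ v i) →
      (0 : Fin n → ℤ) ∉ projK k A → EV (projK k A) m = 0) :
    Φ.mult Z S m = 0 := by
  classical
  have hZ := hTri.2.2.2.2.2.1.2.1
  -- two different elements of `Z` are never in the same cone
  have huniq : ∀ τ ∈ Φ.faces, ∀ z ∈ τ ∩ Z, ∀ z' ∈ τ ∩ Z, z = z' := by
    intro τ hτ z hz z' hz'
    rw [mem_inter] at hz hz'
    obtain ⟨i, rfl⟩ := hZ z hz.2
    obtain ⟨j, rfl⟩ := hZ z' hz'.2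
    by_contra hne
    have hij : i ≠ j := fun h => hne (by rw [h])
    obtain ⟨F, hF, hs⟩ := isFace_of_mem hτ
    exact no_two hTri hp hF hij (psi_single_of_mem hF (hs hz.1) hz.2)
      (psi_single_of_mem hF (hs hz'.1) hz'.2)
  have hax := fun k hk => axis_part hFS hLT hLS hTri hp k hk m (hE k hk)
  unfold Fan.mult
  by_cases hSne : S = ∅
  · subst hSne
    -- split according to `τ ∩ Z`
    have hsplit : ∀ τ ∈ Φ.faces.filter (fun τ => ∅ ⊆ τ ∧ ¬ τ ⊆ Z ∧ τ.card = (cs τ).card ∧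
        m ∣ latDistZ Z τ), (-1 : ℤ) ^ (n - τ.card) * (volZ Z τ : ℤ) =
        (if Disjoint τ Z then (-1 : ℤ) ^ (n - τ.card) * (volZ Z τ : ℤ) else 0) +
        ∑ z ∈ Z, if z ∈ τ then (-1 : ℤ) ^ (n - τ.card) * (volZ Z τ : ℤ) else 0 := by
      intro τ hτ
      rw [mem_filter] at hτ
      by_cases hd : Disjoint τ Z
      · rw [if_pos hd, Finset.sum_eq_zero, add_zero]
        intro z hz
        rw [if_neg]
        exact fun h => Finset.disjoint_left.1 hd h hz
      · rw [if_neg hd, zero_add]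
        rw [Finset.not_disjoint_iff] at hd
        obtain ⟨z, hzτ, hzZ⟩ := hd
        rw [Finset.sum_eq_single z]
        · rw [if_pos hzτ]
        · intro z' hz' hne
          rw [if_neg]
          intro h
          exact hne (huniq τ hτ.1 z' (mem_inter.2 ⟨h, hz'⟩) z (mem_inter.2 ⟨hzτ, hzZ⟩))
        · exact fun h => absurd hzZ h
    rw [Finset.sum_congr rfl hsplit, Finset.sum_add_distrib, Finset.sum_comm]
    have hA : ∑ τ ∈ Φ.faces.filter (fun τ => ∅ ⊆ τ ∧ ¬ τ ⊆ Z ∧ τ.card = (cs τ).card ∧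
        m ∣ latDistZ Z τ),
        (if Disjoint τ Z then (-1 : ℤ) ^ (n - τ.card) * (volZ Z τ : ℤ) else 0) = 0 := by
      rw [← Finset.sum_filter, Finset.filter_filter]
      have := origin_part hFS hTri m
      rw [h0, mul_zero] at this
      rw [← this]
      refine Finset.sum_congr ?_ fun _ _ => rfl
      ext τ
      simp only [mem_filter]
      constructor
      · rintro ⟨h1, ⟨_, h2, h3, h4⟩, h5⟩
        exact ⟨h1, h5, h2, h3, h4⟩
      · rintro ⟨h1, h5, h2, h3, h4⟩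
        exact ⟨h1, ⟨Finset.empty_subset _, h2, h3, h4⟩, h5⟩
    have hB : ∑ z ∈ Z, ∑ τ ∈ Φ.faces.filter (fun τ => ∅ ⊆ τ ∧ ¬ τ ⊆ Z ∧
        τ.card = (cs τ).card ∧ m ∣ latDistZ Z τ),
        (if z ∈ τ then (-1 : ℤ) ^ (n - τ.card) * (volZ Z τ : ℤ) else 0) = 0 := by
      refine Finset.sum_eq_zero fun z hz => ?_
      obtain ⟨k, rfl⟩ := hZ z hz
      rw [← Finset.sum_filter, Finset.filter_filter, ← hax k hz]
      refine Finset.sum_congr ?_ fun _ _ => rfl
      ext τ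
      simp only [mem_filter]
      constructor
      · rintro ⟨h1, ⟨_, h2, h3, h4⟩, h5⟩
        exact ⟨h1, h5, h2, h3, h4⟩
      · rintro ⟨h1, h5, h2, h3, h4⟩
        exact ⟨h1, ⟨Finset.empty_subset _, h2, h3, h4⟩, h5⟩
    rw [hA, hB, add_zero]
  · obtain ⟨z, hz⟩ := Finset.nonempty_iff_ne_empty.2 hSne
    obtain ⟨k, rfl⟩ := hZ z (hS hz)
    by_cases hS1 : ∀ z' ∈ S, z' = Pi.single k 1
    · rw [← hax k (hS hz)]
      refine Finset.sum_congr ?_ fun _ _ => rfl
      ext τ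
      simp only [mem_filter]
      constructor
      · rintro ⟨h1, h2, h3, h4, h5⟩
        exact ⟨h1, h2 hz, h3, h4, h5⟩
      · rintro ⟨h1, h2, h3, h4, h5⟩
        refine ⟨h1, ?_, h3, h4, h5⟩
        intro z' hz'
        rw [hS1 z' hz']
        exact h2
    · push Not at hS1
      obtain ⟨z', hz', hne⟩ := hS1
      refine Finset.sum_eq_zero fun τ hτ => ?_
      rw [mem_filter] at hτ
      exact absurd (huniq τ hτ.1 z' (mem_inter.2 ⟨hτ.2.1 hz', hS hz'⟩) _
        (mem_inter.2 ⟨hτ.2.1 hz, hS hz⟩)) hne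

theorem final2 (hNF : NewtonFan) (hDF : DualFan) (hZ : ZFormula)
    (hE : ZEval) (hP : PoleLemma) (hM : ClassMain) (hFS : FaceSumMult) (hC : CycloLemma)
    (hLT : LinkTri) (hLS : LinkSum)
    (f : MvPolynomial (Fin n) ℂ) (hf : f ≠ 0) (h0 : f.coeff 0 = 0)
    (hp : ∀ i j : Fin n, i ≠ j → ∃ d : Fin n →₀ ℕ, f.coeff d ≠ 0 ∧
      ∀ l, l ≠ i → l ≠ j → d l = 0) :
    (∃ T : Fan n, Adapted (expo f) T) ∧
    ∀ T : Fan n, Adapted (expo f) T → ∀ s₀ : ℂ, (ZDL (expo f) T).denom.eval s₀ = 0 →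
      (∃ k : ℤ, s₀ = k) ∨
      ZeroOrPole (zetaV (expo f)) (Complex.exp (2 * Real.pi * Complex.I * s₀)) ∨
      ∃ k : Fin n, (∀ d : ℕ, f.coeff (Finsupp.single k d) = 0) ∧
        ZeroOrPole (zetaV (projK k (expo f))) (Complex.exp (2 * Real.pi * Complex.I * s₀)) := by
  have hnn := nonneg_expo f
  have h0A := zero_notMem_expo f h0
  have hne : (expo f).Nonempty := by
    obtain ⟨d, hd⟩ := MvPolynomial.ne_zero_iff.1 hf
    exact ⟨_, Finset.mem_image.2 ⟨d, MvPolynomial.mem_support_iff.2 hd, rfl⟩⟩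
  have hn : 0 < n := by
    rcases Nat.eq_zero_or_pos n with h | h
    · subst h
      obtain ⟨v, hv⟩ := hne
      exact absurd (by rwa [Subsingleton.elim v 0] at hv) h0A
    · exact h
  have hp' : ∀ i j : Fin n, i ≠ j → ∃ v ∈ expo f, ∀ l, l ≠ i → l ≠ j → v l = 0 := by
    intro i j hij
    obtain ⟨d, hd, hl⟩ := hp i j hij
    refine ⟨fun l => (d l : ℤ), Finset.mem_image.2 ⟨d, MvPolynomial.mem_support_iff.2 hd, rfl⟩,
      fun l h1 h2 => by simp [hl l h1 h2]⟩
  refine ⟨hDF n _ hne hnn, fun T hT s₀ hs₀ => ?_⟩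
  obtain ⟨Φ, Z, hTri, hCoh⟩ := hNF n _ hne hnn h0A
  obtain ⟨q, hq, hpos, hZf⟩ := hZ n _ Z Φ hn hTri
  have hpole := hP (ZDL (expo f) T) (Φ.mx.image (fun F => psi Z F (fun _ => (1 : ℝ)))) q (by
    intro s hs _
    have h1 := hE n (expo f) T hnn s hs
    refine ⟨h1.1, ?_⟩
    rw [h1.2, hZf T hT s hs]) s₀ hs₀
  rcases hpole with h | ⟨a, _, hqa, hsa⟩
  · exact Or.inl ⟨-1, by simp [h]⟩
  · have hex : ∃ σ c, Φ.IsClass σ c ∧ ∑ t ∈ σ \ Z, c t = a ∧ ¬ Φ.Kill Z σ := by
      by_contra hcon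
      push Not at hcon
      exact hqa (hq a (fun σ c h1 h2 => hcon σ c h1 h2))
    obtain ⟨σ, c, hcl, hsum, hk⟩ := hex
    obtain ⟨r, hr, hmain⟩ := hM n Φ hCoh Z σ hTri.2.2.2.2.2.1 c hcl
    have har : a = (r : ℝ) := by rw [← hsum, hr]
    have hs' : s₀ = -(r : ℂ) := by rw [hsa, har]; push_cast; rfl
    by_cases hden : r.den = 1
    · left
      refine ⟨-r.num, ?_⟩
      rw [hs']
      have : r = (r.num : ℚ) := by
        conv_lhs => rw [← Rat.num_div_den r]
        rw [hden]; simp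
      rw [this]
      push_cast
      simp
    · right
      have hprim := primitive_exp r
      rw [← hs'] at hprim
      by_contra hcon
      push Not at hcon
      obtain ⟨hc1, hc2⟩ := hcon
      apply hk
      apply hmain hden
      refine mult_zero hFS hLT hLS hTri hp' r.den Finset.inter_subset_right ?_ ?_
      · by_contra hEV
        exact hc1 (zop_of_EV hC hne hnn h0A r.den_nz hprim hEV)
      · intro k hkZ hface hne' hnn' h0'
        by_contra hEV
        refine hc2 k ?_ (zop_of_EV hC hne' hnn' h0' r.den_nz hprim hEV)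
        intro d
        by_contra hd
        have hdA : (fun l => ((Finsupp.single k d) l : ℤ)) ∈ expo f :=
          Finset.mem_image.2 ⟨_, MvPolynomial.mem_support_iff.2 hd, rfl⟩
        apply h0'
        refine Finset.mem_image.2 ⟨_, hdA, ?_⟩
        funext l
        by_cases hl : l = k
        · subst hl; simp
        · simp [Function.update_of_ne hl, Finsupp.single_apply, Ne.symm hl]

end Fin20

end Mono
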