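import Pool.Agent.Helper20.Mono.GoalsS
import Pool.Agent.Helper20.Mono.Final2

/-! Final assembly: the general case. -/

namespace Mono

namespace Fin20

open Finset

variable {n : ℕ}

/-- The exponent of the primitive `m`-th roots of unity in the zeta function of the slice. -/
noncomputable def ES (A : Finset (Fin n → ℤ)) (K : Finset (Fin n)) (b : Fin n → ℝ) (m : ℕ) : ℤ :=
  ∑ φ ∈ (cellsS A K b).filter (fun φ => dimF (projS K φ) + 1 = (cs (projS K φ)).card ∧
      m ∣ latDist (projS K φ)), (-1) ^ dimF (projS K φ) * nvol (projS K φ)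

theorem zop_of_ES (hC : CycloLemma) (hL : CellLat) {A : Finset (Fin n → ℤ)}
    {K : Finset (Fin n)} {b : Fin n → ℝ} {m : ℕ} (hm : m ≠ 0) {ω : ℂ}
    (hω : IsPrimitiveRoot ω m) (hE : ES A K b m ≠ 0) : ZeroOrPole (zetaS A K b) ω := by
  refine hC (Finset (Fin n → ℤ)) ((cellsS A K b).filter
    (fun φ => dimF (projS K φ) + 1 = (cs (projS K φ)).card)) (fun φ => latDist (projS K φ))
    (fun φ => (-1) ^ dimF (projS K φ) * nvol (projS K φ)) m ω ?_ hω hm ?_
  · intro φ hφ
    exact hL n A b K φ (Finset.mem_filter.1 hφ).1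
  · rw [Finset.filter_filter]
    exact hE

/-- If there is a cell then no point of `A` is supported on `K`. -/
theorem no_supp_of_cell {A : Finset (Fin n → ℤ)} {K : Finset (Fin n)} {b : Fin n → ℝ}
    {φ : Finset (Fin n → ℤ)} (hφ : φ ∈ cellsS A K b) {v : Fin n → ℤ} (hv : v ∈ A)
    (hK : ∀ i, i ∉ K → v i = 0) : False := by
  classical
  simp only [cellsS, mem_filter] at hφ
  obtain ⟨_, k, l, h1, _, h3, _⟩ := hφ
  have h0 : k ⬝ᵥ toR v = 0 := by
    refine Finset.sum_eq_zero fun i _ => ?_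
    by_cases hi : i ∈ K
    · rw [(h1 i hi).1, zero_mul]
    · simp [hK i hi]
  rcases h3 v hv with h | ⟨h, _⟩
  · rw [h0] at h; linarith
  · rw [h0] at h; linarith

theorem mem_eK {K : Finset (Fin n)} {u : Fin n → ℤ} : u ∈ eK K ↔ ∃ k ∈ K, Pi.single k 1 = u := by
  simp [eK]

theorem eK_inj {K K' : Finset (Fin n)} (h : eK K = eK K') : K = K' := by
  have hinj : Function.Injective (fun k : Fin n => (Pi.single k 1 : Fin n → ℤ)) := by
    intro i j hij
    by_contra hne
    have := congrFun hij i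
    simp [Pi.single_apply, hne] at this
  exact Finset.image_injective hinj h

theorem card_eK (K : Finset (Fin n)) : (eK K).card = K.card := by
  refine Finset.card_image_of_injective _ ?_
  intro i j hij
  by_contra hne
  have := congrFun hij i
  simp [Pi.single_apply, hne] at this

open Classical in
/-- The part of the multiplicity at the stratum `K`. -/
theorem stratum_part (hCS : CellSum) {A Z : Finset (Fin n → ℤ)} {b : Fin n → ℝ} {Φ : Fan n}
    (hTri : Tri A Z Φ) (hB : BFan A Z b Φ) (hb : ∀ i, 0 < b i) (K : Finset (Fin n)) (m : ℕ)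
    (hE : ES A K b m = 0) :
    ∑ τ ∈ Φ.faces.filter (fun τ => τ ∩ Z = eK K ∧ ¬ τ ⊆ Z ∧ τ.card = (cs τ).card ∧
      m ∣ latDistZ Z τ), (-1) ^ (n - τ.card) * (volZ Z τ : ℤ) = 0 := by
  have h1 := hCS n A Z b Φ hTri hB hb K m
  unfold ES at hE
  rw [hE] at h1
  have h2 : ∑ τ ∈ Φ.faces.filter (fun τ => τ ∩ Z = eK K ∧ ¬ τ ⊆ Z ∧ τ.card = (cs τ).card ∧
      m ∣ latDistZ Z τ), (-1) ^ (n - τ.card) * (volZ Z τ : ℤ) =
      (-1) ^ (n - K.card - 1) * ∑ τ ∈ Φ.faces.filter (fun τ => τ ∩ Z = eK K ∧ ¬ τ ⊆ Z ∧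
        τ.card = (cs τ).card ∧ m ∣ latDistZ Z τ), (-1) ^ ((τ \ Z).card - 1) * (volZ Z τ : ℤ) := by
    rw [Finset.mul_sum]
    refine Finset.sum_congr rfl fun τ hτ => ?_
    rw [mem_filter] at hτ
    obtain ⟨hf, hK, hZ, _, _⟩ := hτ
    obtain ⟨F, hF, hs⟩ := isFace_of_mem hf
    have hc1 : τ.card ≤ n := (Finset.card_le_card hs).trans (Φ.mx_card F hF).le
    have hc2 : (τ \ Z).card + (τ ∩ Z).card = τ.card := Finset.card_sdiff_add_card_inter τ Z
    rw [hK, card_eK] at hc2
    have hc3 : 0 < (τ \ Z).card := Finset.card_pos.2 (by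
      rw [Finset.sdiff_nonempty]; exact hZ)
    rw [← mul_assoc, ← pow_add]
    congr 1
    have e1 : n - K.card - 1 + ((τ \ Z).card - 1) = (n - τ.card) + 2 * ((τ \ Z).card - 1) := by
      omega
    rw [e1, pow_add, pow_mul]
    simp
  rw [h2, ← h1, mul_zero]

open Classical in
/-- If the exponents of all slices vanish then so does the multiplicity attached to `S ⊆ Z`. -/
theorem mult_zero3 (hCS : CellSum) {A Z : Finset (Fin n → ℤ)} {b : Fin n → ℝ} {Φ : Fan n}
    (hTri : Tri A Z Φ) (hB : BFan A Z b Φ) (hb : ∀ i, 0 < b i) (m : ℕ)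
    {S : Finset (Fin n → ℤ)} (hSZ : S ⊆ Z) (hE : ∀ K : Finset (Fin n), ES A K b m = 0) :
    Φ.mult Z S m = 0 := by
  have hZ := hTri.2.2.2.2.2.1.2.1
  unfold Fan.mult
  -- the set of coordinates of `τ ∩ Z`
  let κ : Finset (Fin n → ℤ) → Finset (Fin n) := fun τ =>
    univ.filter (fun k => (Pi.single k 1 : Fin n → ℤ) ∈ τ ∩ Z)
  have hκ : ∀ τ, τ ∩ Z = eK (κ τ) := by
    intro τ
    ext u
    rw [mem_eK]
    constructor
    · intro hu
      obtain ⟨k, rfl⟩ := hZ u (mem_inter.1 hu).2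
      exact ⟨k, by simp only [κ, mem_filter]; exact ⟨mem_univ _, hu⟩, rfl⟩
    · rintro ⟨k, hk, rfl⟩
      exact (mem_filter.1 hk).2
  rw [← Finset.sum_fiberwise (Φ.faces.filter (fun τ => S ⊆ τ ∧ ¬ τ ⊆ Z ∧ τ.card = (cs τ).card ∧
    m ∣ latDistZ Z τ)) κ]
  refine Finset.sum_eq_zero fun K _ => ?_
  by_cases hK : S ⊆ eK K
  · rw [← stratum_part hCS hTri hB hb K m (hE K)]
    refine Finset.sum_congr ?_ fun _ _ => rfl
    ext τ
    simp only [mem_filter]
    constructor
    · rintro ⟨⟨h1, _, h3, h4, h5⟩, h6⟩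
      exact ⟨h1, by rw [hκ τ, h6], h3, h4, h5⟩
    · rintro ⟨h1, h2, h3, h4, h5⟩
      refine ⟨⟨h1, ?_, h3, h4, h5⟩, ?_⟩
      · intro u hu
        have hu' : u ∈ eK K := hK hu
        rw [← h2] at hu'
        exact (mem_inter.1 hu').1
      · exact eK_inj (by rw [← hκ τ, h2])
  · refine Finset.sum_eq_zero fun τ hτ => ?_
    exfalso
    simp only [mem_filter] at hτ
    apply hK
    intro u hu
    rw [← hτ.2, ← hκ τ]
    exact mem_inter.2 ⟨hτ.1.2.1 hu, hSZ hu⟩

theorem final3 (hNF : FanB) (hDF : DualFan) (hZ : ZFormula)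
    (hE : ZEval) (hP : PoleLemma) (hM : ClassMain) (hC : CycloLemma)
    (hCS : CellSum) (hL : CellLat) (hZE : ZetaEmpty)
    (hZA : ∀ (n : ℕ) (A : Finset (Fin n → ℤ)) (b : Fin n → ℝ), A.Nonempty →
      (∀ v ∈ A, ∀ i, 0 ≤ v i) → (0 : Fin n → ℤ) ∉ A → (∀ i, 0 < b i) → LinearIndependent ℚ b →
      ∀ k : Fin n, (∀ d : ℤ, (Pi.single k d : Fin n → ℤ) ∉ A) →
      (∀ j, j ≠ k → ∃ v ∈ A, ∀ l, l ≠ j → l ≠ k → v l = 0) →
      zetaS A {k} b = zetaV (projK k A))
    (f : MvPolynomial (Fin n) ℂ) (hf : f ≠ 0) (h0 : f.coeff 0 = 0)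
    (b : Fin n → ℝ) (hb : ∀ i, 0 < b i) (hlin : LinearIndependent ℚ b) :
    (∃ T : Fan n, Adapted (expo f) T) ∧
    (∀ T : Fan n, Adapted (expo f) T → ∀ s₀ : ℂ, (ZDL (expo f) T).denom.eval s₀ = 0 →
      (∃ k : ℤ, s₀ = k) ∨
      ZeroOrPole (zetaV (expo f)) (Complex.exp (2 * Real.pi * Complex.I * s₀)) ∨
      ∃ K : Finset (Fin n), K.Nonempty ∧
        (∀ d : Fin n →₀ ℕ, (∀ i, i ∉ K → d i = 0) → f.coeff d = 0) ∧
        ZeroOrPole (zetaS (expo f) K b) (Complex.exp (2 * Real.pi * Complex.I * s₀))) ∧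
    (∀ k : Fin n, (∀ d : ℕ, f.coeff (Finsupp.single k d) = 0) →
      (∀ j, j ≠ k → ∃ d : Fin n →₀ ℕ, f.coeff d ≠ 0 ∧ ∀ l, l ≠ j → l ≠ k → d l = 0) →
      zetaS (expo f) {k} b = zetaV (projK k (expo f))) := by
  have hnn := nonneg_expo f
  have h0A := zero_notMem_expo f h0
  have hmem : ∀ d : Fin n →₀ ℕ, f.coeff d ≠ 0 → (fun l => ((d l : ℕ) : ℤ)) ∈ expo f := by
    intro d hd
    exact Finset.mem_image.2 ⟨d, MvPolynomial.mem_support_iff.2 hd, rfl⟩
  have hne : (expo f).Nonempty := by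
    obtain ⟨d, hd⟩ := MvPolynomial.ne_zero_iff.1 hf
    exact ⟨_, hmem d hd⟩
  have hn : 0 < n := by
    rcases Nat.eq_zero_or_pos n with h | h
    · subst h
      obtain ⟨v, hv⟩ := hne
      exact absurd (by rwa [Subsingleton.elim v 0] at hv) h0A
    · exact h
  refine ⟨hDF n _ hne hnn, fun T hT s₀ hs₀ => ?_, ?_⟩
  · obtain ⟨Φ, Z, hTri, hCoh, hB⟩ := hNF n _ b hne hnn h0A hb hlin
    obtain ⟨q, hq, hpos, hZf⟩ := hZ n _ Z Φ hn hTri
    have hpole := hP (ZDL (expo f) T) (Φ.mx.image (fun F => psi Z F (fun _ => (1 : ℝ)))) q (by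
      intro s hs _
      have h1 := hE n (expo f) T hnn s hs
      refine ⟨h1.1, ?_⟩
      rw [h1.2, hZf T hT s hs]) s₀ hs₀
    rcases hpole with h | ⟨a, _, hqa, hsa⟩
    · exact Or.inl ⟨-1, by simp [h]⟩
    · have hex : ∃ σ c, Φ.IsClass σ c ∧ ∑ t ∈ σ \ Z, c t = a ∧ ¬ Φ.Kill Z σ := by
        by_contra hcon
        push Not at hcon
        exact hqa (hq a (fun σ c h1 h2 => hcon σ c h1 h2))
      obtain ⟨σ, c, hcl, hsum, hk⟩ := hex
      obtain ⟨r, hr, hmain⟩ := hM n Φ hCoh Z σ hTri.2.2.2.2.2.1 c hcl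
      have har : a = (r : ℝ) := by rw [← hsum, hr]
      have hs' : s₀ = -(r : ℂ) := by rw [hsa, har]; push_cast; rfl
      by_cases hden : r.den = 1
      · left
        refine ⟨-r.num, ?_⟩
        rw [hs']
        have : r = (r.num : ℚ) := by
          conv_lhs => rw [← Rat.num_div_den r]
          rw [hden]; simp
        rw [this]
        push_cast
        simp
      · right
        have hprim := primitive_exp r
        rw [← hs'] at hprim
        have hexK : ∃ K : Finset (Fin n), ES (expo f) K b r.den ≠ 0 := by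
          by_contra hcon
          push Not at hcon
          apply hk
          apply hmain hden
          exact mult_zero3 hCS hTri hB hb r.den Finset.inter_subset_right hcon
        obtain ⟨K, hK⟩ := hexK
        have hzp := zop_of_ES hC hL r.den_nz hprim hK
        by_cases hKe : K = ∅
        · subst hKe
          left
          rwa [hZE n _ b hne hnn h0A hb] at hzp
        · right
          refine ⟨K, Finset.nonempty_iff_ne_empty.2 hKe, ?_, hzp⟩
          intro d hd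
          by_contra hdc
          obtain ⟨φ, hφ, _⟩ := Finset.exists_ne_zero_of_sum_ne_zero hK
          refine no_supp_of_cell (Finset.mem_filter.1 hφ).1 (hmem d hdc) ?_
          intro i hi
          simp [hd i hi]
  · intro k hk hpl
    refine hZA n _ b hne hnn h0A hb hlin k ?_ ?_
    · intro d hd
      obtain ⟨e, he, hed⟩ := Finset.mem_image.1 hd
      have h1 : e = Finsupp.single k (e k) := by
        ext i
        by_cases hi : i = k
        · subst hi; simp
        · have := congrFun hed i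
          simp [Pi.single_eq_of_ne hi] at this
          simp [this, Finsupp.single_apply, Ne.symm hi]
      rw [MvPolynomial.mem_support_iff, h1] at he
      exact he (hk _)
    · intro j hj
      obtain ⟨d, hd, hl⟩ := hpl j hj
      refine ⟨_, hmem d hd, fun l h1 h2 => ?_⟩
      simp [hl l h1 h2]

end Fin20

end Mono
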