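import Pool.Agent.Helper20.Mono.GoalsH
import Pool.Agent.Helper20.Mono.BaseL

/-!
# One-dimensional unbounded directions: the link of an axis

`projK k A` is the projection of `A` along the `k`-th axis; its Newton polyhedron is the one of
`f` at a general point of the `k`-th axis.
-/

namespace Mono

open Finset

variable {n : ℕ}

/-- Image of a cone containing `e_k`: all other generators are projected along `e_k`. -/
def linkImg (k : Fin n) (τ : Finset (Fin n → ℤ)) : Finset (Fin n → ℤ) :=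
  insert (Pi.single k 1) (projK k (τ.erase (Pi.single k 1)))

/-- L1: the link of `e_k`, made into a fan by a product with the ray of `e_k`. -/
def LinkTri : Prop := ∀ (n : ℕ) (A Z : Finset (Fin n → ℤ)) (Φ : Fan n) (k : Fin n), Tri A Z Φ →
  Pi.single k 1 ∈ Z → Φ.IsFace {Pi.single k 1} →
  (∀ F ∈ Φ.mx, Pi.single k 1 ∈ F → ∀ i, i ≠ k → 0 < psi Z F (Pi.single i 1)) →
  (∀ u u' : Fin n → ℤ, Φ.IsFace {u, Pi.single k 1} → Φ.IsFace {u', Pi.single k 1} →
    Function.update u k 0 = Function.update u' k 0 → u ≠ Pi.single k 1 →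
    u' ≠ Pi.single k 1 → u = u') ∧
  ∃ Ψ : Fan n, Tri (projK k A) {Pi.single k 1} Ψ ∧
    Ψ.mx = (Φ.mx.filter (fun F => Pi.single k 1 ∈ F)).image (linkImg k)

/-- L2: the multiplicities of the link. -/
def LinkSum : Prop := ∀ (n : ℕ) (A Z : Finset (Fin n → ℤ)) (Φ Ψ : Fan n) (k : Fin n),
  Tri A Z Φ → Pi.single k 1 ∈ Z → Φ.IsFace {Pi.single k 1} →
  (∀ F ∈ Φ.mx, Pi.single k 1 ∈ F → ∀ i, i ≠ k → 0 < psi Z F (Pi.single i 1)) →
  (∀ u u' : Fin n → ℤ, Φ.IsFace {u, Pi.single k 1} → Φ.IsFace {u', Pi.single k 1} →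
    Function.update u k 0 = Function.update u' k 0 → u ≠ Pi.single k 1 →
    u' ≠ Pi.single k 1 → u = u') →
  Tri (projK k A) {Pi.single k 1} Ψ →
  Ψ.mx = (Φ.mx.filter (fun F => Pi.single k 1 ∈ F)).image (linkImg k) →
  ∀ m : ℕ,
  ∑ τ ∈ Φ.faces.filter (fun τ => Pi.single k 1 ∈ τ ∧ ¬ τ ⊆ Z ∧ τ.card = (cs τ).card ∧
      m ∣ latDistZ Z τ), (-1) ^ (n - τ.card) * (volZ Z τ : ℤ) =
  (-1) ^ n * ∑ τ ∈ Ψ.faces.filter (fun τ => τ.Nonempty ∧ τ ⊆ projK k A ∧
      τ.card = (cs τ).card ∧ m ∣ latDist τ), (-1) ^ (τ.card - 1) * (vol τ : ℤ)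

end Mono
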