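import Pool.Agent.Helper33.Mono.All
import Pool.Agent.Helper24.Mono.LinkTri
import Pool.Agent.Helper32.Mono.LinkSum
import Pool.Agent.Helper90.Mono.FanB
import Pool.Agent.Helper80.Mono.IdxProj
import Pool.Agent.Helper80.Mono.CellLat
import Pool.Agent.Helper75.Mono.CellVol
import Pool.Agent.Helper94.Mono.CellSum
import Pool.Agent.Helper77.Mono.ZetaEmpty
import Pool.Agent.Helper71.Mono.CycloEq
import Pool.Agent.Helper83.Mono.ZetaAxis
import Pool.Agent.Helper20.Mono.CellDecomp
import Pool.Agent.Helper20.Mono.Final3

/-!
# The local topological monodromy conjecture for all Newton nondegenerate singularities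

Let `f ≠ 0` be a polynomial in `n` variables with `f(0) = 0`.  Everything below is defined from
the exponent vectors of `f` (`Pool/Agent/Helper20/Mono/Base.lean`, `BaseL.lean`, `BaseS.lean`):

* `ZDL (expo f) T` is the rational function of Denef and Loeser attached to the Newton polyhedron
  of `f`, computed through a simplicial fan `T` refining the dual fan (it is the local topological
  zeta function of `f` at the origin if `f` is nondegenerate);
* `zetaV (expo f)` is Varchenko's rational function (the monodromy zeta function of `f` at the
  origin if `f` is nondegenerate);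
* for a set `K` of coordinates such that `f` vanishes on `ℂ^K`, and for weights `b_i > 0`,
  `zetaS (expo f) K b` is the analogous product for the compact faces met by the slice
  `x_k = c_k t^{b_k}` (`k ∈ K`, `c_k` general constants), `|x_j| < t^{b_j}` (`j ∉ K`), `t → 0`.

Geometric meaning of `zetaS` (outside Lean).  Let `f` be nondegenerate, `b_1, …, b_n` linearly
independent over `ℚ`, and `D_t` the slice above, for small `t > 0`.  In a toric embedded resolution
of `f` at the origin, A'Campo's formula gives for every `x` near `0` the monodromy zeta function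
`ζ_{f,x}` as a product, over the rays `a ≥ 0`, of `1 - T^{N(a)}` to the power the Euler
characteristic of the part over `x` of the corresponding open divisor.  The product of the
`ζ_{f,x}`, `x ∈ D_t ∩ f⁻¹(0)`, each with the Euler characteristic of its stratum as exponent, is
therefore the product of the `(1 - T^{N(a)})^{χ}`, where `χ` is minus the Euler characteristic of
`{f_a(z(t), ·) = 0}` in the polydisc; for `t → 0` this is a sum over the vertices of the tropical
hypersurface of `f_a` in `{w_K = b_K, w_j > b_j}`, i.e. over the faces in the directions `M a + w`,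
`M → ∞`, and the vertex with face `φ` contributes `(-1)^{dim} Vol` of the projection of `φ` along
`ℝ^K`.  This is `zetaS (expo f) K b`, up to a power of `1 - T` (which comes from the strict
transform, where `N = 1`; it is harmless, as the statement allows integral poles).  So a zero or a
pole `≠ 1` of `zetaS (expo f) K b` is a zero or a pole of `ζ_{f,x}` for some `x ∈ f⁻¹(0)`
arbitrarily near the origin, hence an eigenvalue of the monodromy at a point near the origin.

The theorem: simplicial refinements `T` of the dual fan exist, and for each of them, and for all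
positive weights `b` linearly independent over `ℚ`, every pole `s₀` of `ZDL (expo f) T` is an
integer, or `exp(2 π i s₀)` is a zero or a pole of `zetaV (expo f)`, or of `zetaS (expo f) K b` for
some nonempty `K` such that `f` vanishes on `ℂ^K`.  If `f` vanishes on the `k`-th axis but on no
coordinate plane containing it, `zetaS (expo f) {k} b` is Varchenko's function of `f` at a general
point of that axis.
-/

namespace Pool.Agent.Results.MP_aa7fc1_ag.Nondegenerate

open Mono

theorem result {n : ℕ} (f : MvPolynomial (Fin n) ℂ) (hf : f ≠ 0) (h0 : f.coeff 0 = 0)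
    (b : Fin n → ℝ) (hb : ∀ i, 0 < b i) (hlin : LinearIndependent ℚ b) :
    (∃ T : Fan n, Adapted (expo f) T) ∧
    (∀ T : Fan n, Adapted (expo f) T → ∀ s₀ : ℂ, (ZDL (expo f) T).denom.eval s₀ = 0 →
      (∃ k : ℤ, s₀ = k) ∨
      ZeroOrPole (zetaV (expo f)) (Complex.exp (2 * Real.pi * Complex.I * s₀)) ∨
      ∃ K : Finset (Fin n), K.Nonempty ∧
        (∀ d : Fin n →₀ ℕ, (∀ i, i ∉ K → d i = 0) → f.coeff d = 0) ∧
        ZeroOrPole (zetaS (expo f) K b) (Complex.exp (2 * Real.pi * Complex.I * s₀))) ∧
    (∀ k : Fin n, (∀ d : ℕ, f.coeff (Finsupp.single k d) = 0) →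
      (∀ j, j ≠ k → ∃ d : Fin n →₀ ℕ, f.coeff d ≠ 0 ∧ ∀ l, l ≠ j → l ≠ k → d l = 0) →
      zetaS (expo f) {k} b = zetaV (projK k (expo f))) := by
  have hS := spanT
  have hSC := starCoverT
  have hW := wallT hS hSC
  have hB := bdryT hS hSC
  have hK := kFormula hS hW hB idxPos idxWall idxBdry
  have hL := lowDegree hK
  have hA := algMain hS hSC
  have hBox := boxCount idxPos
  have hMF := multFormula hBox hS
  have hPV := pairVanish hL
  have hCK := classKill hPV
  have hCM := classMain hA hMF hCK
  have hCL := classLimit hL
  have hKZ := killZero volHeight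
  have hLW := limitW hCL hKZ
  have hLO := laplaceOrthant hS hW hB idxPos idxWall idxBdry
  have hPr := primalAssembly idxPos hS hK hLO dualLattice (sideDual hS hSC) (sidePrimal hS hSC)
  have hSCt := simplexCount idxPos
  have hNV := nvolSum hSCt
  have hFZ := faceSumZ hNV
  have hFM := faceSumMult hNV
  have hZW := zwIdentity hPr hK
  have hZF := zFormula hZW hFZ hLW
  have hDF := dualFan fanOfGeneric genericHeights coneGen
  have hCV := cellVol cellDecomp hSCt idxProj
  have hCS := cellSum hCV
  exact Fin20.final3 fanB hDF hZF zEval poleLemma hCM cycloLemma hCS cellLat zetaEmpty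
    (zetaAxis cellLat fanB hCS hFM linkTri linkSum cycloEq) f hf h0 b hb hlin

end Pool.Agent.Results.MP_aa7fc1_ag.Nondegenerate
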